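import Mathlib

set_option autoImplicit false

namespace Pool.Agent.RelCotorsion

open Cardinal

lemma card_prod_le {κ : Cardinal.{0}} (hκ : ℵ₀ ≤ κ) {X Y : Type} (hX : #X ≤ κ) (hY : #Y ≤ κ) :
    #(X × Y) ≤ κ := by
  rw [mk_prod, lift_id, lift_id]
  exact mul_le_of_le hκ hX hY

lemma card_finsupp_le {κ : Cardinal.{0}} (hκ : ℵ₀ ≤ κ) {X Y : Type} [Zero Y] (hX : #X ≤ κ)
    (hY : #Y ≤ κ) : #(X →₀ Y) ≤ κ := by
  classical
  have h1 : #(X →₀ Y) ≤ #(Finset (X × Y)) := mk_le_of_injective (Finsupp.graph_injective X Y)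
  have h2 : #(Finset (X × Y)) ≤ #(List (X × Y)) :=
    mk_le_of_surjective (f := List.toFinset) (fun s => ⟨s.toList, s.toList_toFinset⟩)
  exact h1.trans (h2.trans ((mk_list_le_max _).trans (max_le hκ (card_prod_le hκ hX hY))))

lemma card_iUnion_le {κ : Cardinal.{0}} (hκ : ℵ₀ ≤ κ) {I X : Type} (hI : #I ≤ κ)
    (S : I → Set X) (hS : ∀ i, #(S i) ≤ κ) : #(⋃ i, S i) ≤ κ :=
  (mk_iUnion_le S).trans (mul_le_of_le hκ hI (ciSup_le' hS))

lemma card_biUnion_le {κ : Cardinal.{0}} (hκ : ℵ₀ ≤ κ) {I X : Type} {J : Set I} (hJ : #J ≤ κ)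
    (S : I → Set X) (hS : ∀ i ∈ J, #(S i) ≤ κ) : #(⋃ i ∈ J, S i) ≤ κ := by
  rw [Set.biUnion_eq_iUnion]
  exact card_iUnion_le hκ hJ _ (fun i => hS i i.2)

lemma card_union_le {κ : Cardinal.{0}} (hκ : ℵ₀ ≤ κ) {X : Type} {S T : Set X} (hS : #S ≤ κ)
    (hT : #T ≤ κ) : #(S ∪ T : Set X) ≤ κ :=
  (mk_union_le S T).trans (add_le_of_le hκ hS hT)

lemma card_finite_le {κ : Cardinal.{0}} (hκ : ℵ₀ ≤ κ) {X : Type} {S : Set X} (hS : S.Finite) :
    #S ≤ κ := by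
  have : Finite S := hS
  exact (mk_le_aleph0 (α := S)).trans hκ

section Closure

variable {X : Type} (F : Set X → Set X)

/-- The least set which contains `S` and is closed under `F`. -/
def cl (S : Set X) : Set X := ⋂₀ {S' | S ⊆ S' ∧ F S' ⊆ S'}

lemma subset_cl (S : Set X) : S ⊆ cl F S := fun _ hx _ h => h.1 hx

lemma cl_mono {S S' : Set X} (h : S ⊆ S') : cl F S ⊆ cl F S' :=
  fun _ hx _ h' => hx _ ⟨h.trans h'.1, h'.2⟩

lemma cl_closed (hF : Monotone F) (S : Set X) : F (cl F S) ⊆ cl F S := by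
  intro x hx S' h'
  exact h'.2 (hF (show cl F S ⊆ S' from fun y hy => hy S' h') hx)

lemma exists_closed {κ : Cardinal.{0}} (hκ : ℵ₀ ≤ κ) (hF : Monotone F)
    (hcard : ∀ S : Set X, #S ≤ κ → #(F S) ≤ κ)
    (hfin : ∀ S : ℕ → Set X, Monotone S → F (⋃ n, S n) ⊆ ⋃ n, F (S n))
    (S : Set X) (hS : #S ≤ κ) : ∃ S', S ⊆ S' ∧ F S' ⊆ S' ∧ #S' ≤ κ := by
  let G : Set X → Set X := fun S => S ∪ F S
  let s : ℕ → Set X := fun n => G^[n] S
  have hs : ∀ n, s (n + 1) = s n ∪ F (s n) := fun n => Function.iterate_succ_apply' G n S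
  have hmono : Monotone s := by
    refine monotone_nat_of_le_succ fun n => ?_
    rw [hs]
    exact Set.subset_union_left
  have hc : ∀ n, #(s n) ≤ κ := by
    intro n
    induction n with
    | zero => exact hS
    | succ n ih =>
      rw [hs]
      exact card_union_le hκ ih (hcard _ ih)
  refine ⟨⋃ n, s n, Set.subset_iUnion s 0, ?_, card_iUnion_le hκ (by simpa using hκ) s hc⟩
  refine (hfin s hmono).trans ?_
  refine Set.iUnion_subset fun n => ?_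
  refine Set.Subset.trans ?_ (Set.subset_iUnion s (n + 1))
  rw [hs]
  exact Set.subset_union_right

lemma card_cl {κ : Cardinal.{0}} (hκ : ℵ₀ ≤ κ) (hF : Monotone F)
    (hcard : ∀ S : Set X, #S ≤ κ → #(F S) ≤ κ)
    (hfin : ∀ S : ℕ → Set X, Monotone S → F (⋃ n, S n) ⊆ ⋃ n, F (S n))
    (S : Set X) (hS : #S ≤ κ) : #(cl F S) ≤ κ := by
  obtain ⟨S', h1, h2, h3⟩ := exists_closed F hκ hF hcard hfin S hS
  exact (mk_le_mk_of_subset (show cl F S ⊆ S' from fun x hx => hx S' ⟨h1, h2⟩)).trans h3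

end Closure

/-- unary operations -/
def F1 {X : Type} (t : X → Set X) (S : Set X) : Set X := ⋃ j ∈ S, t j

lemma F1_mono {X : Type} (t : X → Set X) : Monotone (F1 t) :=
  fun _ _ h => Set.biUnion_subset_biUnion_left h

lemma F1_iUnion {X : Type} (t : X → Set X) (S : ℕ → Set X) :
    F1 t (⋃ n, S n) ⊆ ⋃ n, F1 t (S n) := by
  intro x hx
  simp only [F1, Set.mem_iUnion] at hx ⊢
  obtain ⟨j, ⟨n, hj⟩, hx⟩ := hx
  exact ⟨n, j, hj, hx⟩

lemma card_cl_F1 {κ : Cardinal.{0}} (hκ : ℵ₀ ≤ κ) {X : Type} (t : X → Set X)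
    (ht : ∀ j, #(t j) ≤ κ) (S : Set X) (hS : #S ≤ κ) : #(cl (F1 t) S) ≤ κ :=
  card_cl _ hκ (F1_mono t) (fun _ h => card_biUnion_le hκ h _ fun i _ => ht i)
    (fun S _ => F1_iUnion t S) S hS

/-- binary operations -/
def F2 {X : Type} (t : X → X → Set X) (S : Set X) : Set X := ⋃ a ∈ S, ⋃ j ∈ S, t a j

lemma F2_mono {X : Type} (t : X → X → Set X) : Monotone (F2 t) := by
  intro S S' h x hx
  simp only [F2, Set.mem_iUnion] at hx ⊢
  obtain ⟨a, ha, j, hj, hx⟩ := hx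
  exact ⟨a, h ha, j, h hj, hx⟩

lemma F2_iUnion {X : Type} (t : X → X → Set X) (S : ℕ → Set X) (hS : Monotone S) :
    F2 t (⋃ n, S n) ⊆ ⋃ n, F2 t (S n) := by
  intro x hx
  simp only [F2, Set.mem_iUnion] at hx ⊢
  obtain ⟨a, ⟨n, ha⟩, j, ⟨m, hj⟩, hx⟩ := hx
  exact ⟨max n m, a, hS (le_max_left n m) ha, j, hS (le_max_right n m) hj, hx⟩

lemma card_cl_F2 {κ : Cardinal.{0}} (hκ : ℵ₀ ≤ κ) {X : Type} (t : X → X → Set X)
    (ht : ∀ a j, #(t a j) ≤ κ) (S : Set X) (hS : #S ≤ κ) : #(cl (F2 t) S) ≤ κ :=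
  card_cl _ hκ (F2_mono t)
    (fun _ h => card_biUnion_le hκ h _ fun i _ => card_biUnion_le hκ h _ fun j _ => ht i j)
    (fun S hS => F2_iUnion t S hS) S hS

end Pool.Agent.RelCotorsion
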