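import Mathlib

set_option autoImplicit false

namespace Pool.Agent.RelCotorsion

open CategoryTheory Abelian

variable {A : Type} [Ring A]

/-- If each map from the kernel of a projective presentation extends, then `Ext¹` vanishes. -/
lemma ext_subsingleton_of_extend {Q F C : Type} [AddCommGroup Q] [Module A Q] [AddCommGroup F]
    [Module A F] [AddCommGroup C] [Module A C] [Module.Projective A Q] (π : Q →ₗ[A] F)
    (hπ : Function.Surjective π)
    (hext : ∀ φ : LinearMap.ker π →ₗ[A] C, ∃ ψ : Q →ₗ[A] C, ∀ x : LinearMap.ker π, ψ x = φ x) :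
    Subsingleton (Ext (ModuleCat.of A F) (ModuleCat.of A C) 1) := by
  refine subsingleton_of_forall_eq 0 fun x => ?_
  have hS : π.shortComplexKer.ShortExact := LinearMap.shortExact_shortComplexKer hπ
  have : Projective π.shortComplexKer.X₂ :=
    inferInstanceAs (Projective (ModuleCat.of A Q))
  obtain ⟨y, hy⟩ := Ext.contravariant_sequence_exact₃ hS (ModuleCat.of A C) x
    (Ext.eq_zero_of_projective _) (add_zero 1)
  obtain ⟨φ, rfl⟩ := (Ext.mk₀_bijective _ _).2 y
  obtain ⟨ψ, hψ⟩ := hext φ.hom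
  have h1 : φ = π.shortComplexKer.f ≫ ModuleCat.ofHom ψ := by
    ext z
    exact (hψ z).symm
  rw [← hy, h1, ← Ext.mk₀_comp_mk₀, hS.extClass_comp_assoc]

/-- If `Ext¹(F, ker p)` vanishes then each map from `F` to the target of the surjection `p`
lifts. -/
lemma lift_of_ext_subsingleton {F C Z : Type} [AddCommGroup F] [Module A F]
    [AddCommGroup C] [Module A C] [AddCommGroup Z] [Module A Z] (p : C →ₗ[A] Z)
    (hp : Function.Surjective p)
    (hE : Subsingleton (Ext (ModuleCat.of A F) (ModuleCat.of A (LinearMap.ker p)) 1))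
    (f : F →ₗ[A] Z) : ∃ g : F →ₗ[A] C, ∀ x, p (g x) = f x := by
  have hS : p.shortComplexKer.ShortExact := LinearMap.shortExact_shortComplexKer hp
  obtain ⟨y, hy⟩ := Ext.covariant_sequence_exact₃ (ModuleCat.of A F) hS
    (Ext.mk₀ (ModuleCat.ofHom f)) (zero_add 1) (hE.elim _ _)
  obtain ⟨g, rfl⟩ := (Ext.mk₀_bijective _ _).2 y
  rw [Ext.mk₀_comp_mk₀] at hy
  have h1 := (Ext.mk₀_bijective _ _).1 hy
  refine ⟨g.hom, fun x => ?_⟩
  have h2 := congrArg (fun u : ModuleCat.of A F ⟶ ModuleCat.of A Z => u.hom x) h1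
  exact h2

end Pool.Agent.RelCotorsion
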