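import Mathlib

set_option autoImplicit false

namespace Pool.Agent.RelCotorsion

variable {k Λ : Type} [Field k] [CommRing Λ] [Algebra k Λ]

/-- The ring homomorphism `k × Λ → Λ`, `(c, l) ↦ c (1 - e₀) + l e₀` given by an idempotent. -/
def fLam (k : Type) [Field k] [Algebra k Λ] (e0 : Λ) (he : e0 * e0 = e0) : k × Λ →+* Λ where
  toFun r := algebraMap k Λ r.1 * (1 - e0) + r.2 * e0
  map_one' := by
    rw [Prod.fst_one, Prod.snd_one, map_one]
    ring
  map_mul' r s := by
    rw [Prod.fst_mul, Prod.snd_mul, map_mul]
    linear_combination (algebraMap k Λ r.1 * s.2 + r.2 * algebraMap k Λ s.1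
      - algebraMap k Λ r.1 * algebraMap k Λ s.1 - r.2 * s.2) * he
  map_zero' := by
    rw [Prod.fst_zero, Prod.snd_zero, map_zero]
    ring
  map_add' r s := by
    rw [Prod.fst_add, Prod.snd_add, map_add]
    ring

variable {e0 : Λ} (he : e0 * e0 = e0)

lemma fLam_apply (r : k × Λ) :
    fLam k e0 he r = algebraMap k Λ r.1 * (1 - e0) + r.2 * e0 := rfl

section

variable (X : Type) [AddCommGroup X] [Module Λ X]

/-- `X` as a module over `k × Λ`. -/
@[instance_reducible]
def RMod : Module (k × Λ) X := Module.compHom X (fLam k e0 he)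

lemma proj1 (hX : ∀ x : X, e0 • x = 0) : @Module.Projective (k × Λ) _ X _ (RMod he X) := by
  let _ := RMod (k := k) he X
  have hsm : ∀ (r : k × Λ) (x : X),
      r • x = (algebraMap k Λ r.1 * (1 - e0) + r.2 * e0) • x := fun _ _ => rfl
  let _ : Module k X := Module.compHom X (algebraMap k Λ)
  have hk : ∀ (c : k) (x : X), c • x = algebraMap k Λ c • x := fun _ _ => rfl
  have hsm' : ∀ (r : k × Λ) (x : X), r • x = r.1 • x := by
    intro r x
    rw [hsm, hk, add_smul, mul_smul, mul_smul, sub_smul, one_smul, hX, smul_zero, sub_zero,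
      add_zero]
  let β := Module.Basis.ofVectorSpace k X
  let i : X →ₗ[k × Λ] (_ →₀ (k × Λ)) :=
    { toFun := fun x => Finsupp.mapRange (fun c : k => ((c, 0) : k × Λ)) rfl (β.repr x)
      map_add' := by
        intro x y
        rw [map_add, Finsupp.mapRange_add]
        intro c d
        rw [Prod.mk_add_mk, add_zero]
      map_smul' := by
        intro r x
        rw [hsm', map_smul, RingHom.id_apply]
        ext j
        · simp
        · simp }
  let p : (_ →₀ (k × Λ)) →ₗ[k × Λ] X := Finsupp.linearCombination (k × Λ) β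
  refine Module.Projective.of_split i p ?_
  ext x
  change Finsupp.linearCombination (k × Λ) β
    (Finsupp.mapRange (fun c : k => ((c, 0) : k × Λ)) rfl (β.repr x)) = x
  rw [Finsupp.linearCombination_apply, Finsupp.sum_mapRange_index (by intro j; rw [zero_smul])]
  simp only [hsm']
  exact β.linearCombination_repr x

lemma proj2 [Module.Projective Λ X] : @Module.Projective (k × Λ) _ X _ (RMod he X) := by
  let _ := RMod (k := k) he X
  have hsm : ∀ (r : k × Λ) (x : X),
      r • x = (algebraMap k Λ r.1 * (1 - e0) + r.2 * e0) • x := fun _ _ => rfl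
  let _ : Module k X := Module.compHom X (algebraMap k Λ)
  have hk : ∀ (c : k) (x : X), c • x = algebraMap k Λ c • x := fun _ _ => rfl
  have he1 : (1 - e0) * (1 - e0) = 1 - e0 := by linear_combination he
  have he2 : e0 * (1 - e0) = 0 := by linear_combination -he
  let β := Module.Basis.ofVectorSpace k X
  let i : X →ₗ[k × Λ] (_ →₀ (k × Λ)) :=
    { toFun := fun x => Finsupp.mapRange (fun c : k => ((c, 0) : k × Λ)) rfl
        (β.repr ((1 - e0) • x))
      map_add' := by
        intro x y
        rw [smul_add, map_add, Finsupp.mapRange_add]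
        intro c d
        rw [Prod.mk_add_mk, add_zero]
      map_smul' := by
        intro r x
        have h1 : (1 - e0) • r • x = r.1 • (1 - e0) • x := by
          rw [hsm, hk, ← mul_smul, ← mul_smul]
          congr 1
          linear_combination (algebraMap k Λ r.1) * he1 + r.2 * he2
        rw [h1, map_smul, RingHom.id_apply]
        ext j
        · simp
        · simp }
  let p : (_ →₀ (k × Λ)) →ₗ[k × Λ] X := Finsupp.linearCombination (k × Λ) β
  have hp : ∀ x, p (i x) = (1 - e0) • x := by
    intro x
    change Finsupp.linearCombination (k × Λ) β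
      (Finsupp.mapRange (fun c : k => ((c, 0) : k × Λ)) rfl (β.repr ((1 - e0) • x))) = _
    rw [Finsupp.linearCombination_apply, Finsupp.sum_mapRange_index (by intro j; rw [zero_smul])]
    have h1 : ∀ (j : _) (c : k), ((c, 0) : k × Λ) • β j = (1 - e0) • c • β j := by
      intro j c
      rw [hsm, hk, ← mul_smul]
      congr 1
      simp only
      ring
    simp only [h1]
    rw [← Finsupp.smul_sum]
    have h2 : ((β.repr ((1 - e0) • x)).sum fun a b => b • β a) = (1 - e0) • x :=
      β.linearCombination_repr _
    rw [h2, ← mul_smul, he1]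
  obtain ⟨s, hs⟩ := Module.projective_def'.1 (inferInstance : Module.Projective Λ X)
  let i' : X →ₗ[k × Λ] (X →₀ (k × Λ)) :=
    { toFun := fun x => Finsupp.mapRange (fun c : Λ => ((0, e0 * c) : k × Λ)) (by simp) (s x)
      map_add' := by
        intro x y
        rw [map_add, Finsupp.mapRange_add]
        intro c d
        rw [Prod.mk_add_mk, add_zero, mul_add]
      map_smul' := by
        intro r x
        rw [hsm, map_smul, RingHom.id_apply]
        ext j
        · simp
        · simp only [Finsupp.mapRange_apply, Finsupp.smul_apply, smul_eq_mul, Prod.smul_mk]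
          change e0 * ((algebraMap k Λ r.1 * (1 - e0) + r.2 * e0) * s x j) = r.2 * (e0 * s x j)
          linear_combination (algebraMap k Λ r.1 * s x j) * he2 + (r.2 * s x j) * he }
  let p' : (X →₀ (k × Λ)) →ₗ[k × Λ] X := Finsupp.linearCombination (k × Λ) id
  have hp' : ∀ x, p' (i' x) = e0 • x := by
    intro x
    change Finsupp.linearCombination (k × Λ) id
      (Finsupp.mapRange (fun c : Λ => ((0, e0 * c) : k × Λ)) (by simp) (s x)) = _
    rw [Finsupp.linearCombination_apply, Finsupp.sum_mapRange_index (by intro j; rw [zero_smul])]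
    have h1 : ∀ (j : X) (c : Λ), ((0, e0 * c) : k × Λ) • id j = e0 • c • id j := by
      intro j c
      rw [hsm, ← mul_smul]
      congr 1
      simp only [map_zero]
      linear_combination c * he
    simp only [h1]
    rw [← Finsupp.smul_sum]
    have h2 : ((s x).sum fun a b => b • id a) = x := LinearMap.congr_fun hs x
    rw [h2]
  refine Module.Projective.of_split (i.prod i') (p.coprod p') ?_
  ext x
  change p (i x) + p' (i' x) = x
  rw [hp, hp', ← add_smul, sub_add_cancel, one_smul]

lemma factor (hX : @Module.Projective (k × Λ) _ X _ (RMod he X)) :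
    ∃ s : X →ₗ[Λ] (X →₀ Λ), ∀ x, Finsupp.linearCombination Λ id (s x) = e0 • x := by
  let _ := RMod (k := k) he X
  have hsm : ∀ (r : k × Λ) (x : X),
      r • x = (algebraMap k Λ r.1 * (1 - e0) + r.2 * e0) • x := fun _ _ => rfl
  have hsm' : ∀ (c : Λ) (x : X), ((0, c) : k × Λ) • x = (c * e0) • x := by
    intro c x
    rw [hsm]
    simp only [map_zero, zero_mul, zero_add]
  obtain ⟨s, hs⟩ := Module.projective_def'.1 hX
  have hlin : ∀ (c : Λ) (x y : X), (s (c • x) y).2 = c * (s x y).2 := by
    intro c x y
    have h1 : ((0, 1) : k × Λ) • (c • x) = ((0, c) : k × Λ) • x := by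
      rw [hsm', hsm', ← mul_smul, one_mul, mul_comm]
    have h2 := congrArg (fun u : X →₀ (k × Λ) => (u y).2) (congrArg s h1)
    simp only [map_smul, Finsupp.smul_apply] at h2
    change 1 * (s (c • x) y).2 = c * (s x y).2 at h2
    rwa [one_mul] at h2
  let t : X →ₗ[Λ] (X →₀ Λ) :=
    { toFun := fun x => Finsupp.mapRange (fun r : k × Λ => r.2 * e0) (by simp) (s x)
      map_add' := by
        intro x y
        rw [map_add, Finsupp.mapRange_add]
        intro c d
        rw [Prod.snd_add, add_mul]
      map_smul' := by
        intro c x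
        ext y
        rw [RingHom.id_apply, Finsupp.mapRange_apply, Finsupp.smul_apply, Finsupp.mapRange_apply,
          hlin, smul_eq_mul, mul_assoc] }
  refine ⟨t, fun x => ?_⟩
  change Finsupp.linearCombination Λ id
    (Finsupp.mapRange (fun r : k × Λ => r.2 * e0) (by simp) (s x)) = _
  rw [Finsupp.linearCombination_apply, Finsupp.sum_mapRange_index (by intro j; rw [zero_smul])]
  have h1 : ∀ (y : X) (r : k × Λ), (r.2 * e0) • id y = ((0, 1) : k × Λ) • r • id y := by
    intro y r
    rw [hsm', hsm, ← mul_smul]
    congr 1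
    linear_combination (algebraMap k Λ r.1 - r.2) * he
  simp only [h1]
  rw [← Finsupp.smul_sum]
  have h2 : ((s x).sum fun a b => b • id a) = x := LinearMap.congr_fun hs x
  rw [h2, hsm', one_mul]

end

end Pool.Agent.RelCotorsion
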