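import Pool.Agent.RelCotorsion.Diff
import Pool.Agent.RelCotorsion.Proj
import Pool.Agent.RelCotorsion.ExtLemmas

set_option autoImplicit false

namespace Pool.Agent.RelCotorsion

open CategoryTheory Abelian

section Iota

variable (Λ A : Type) [CommRing Λ] [Ring A] [Module Λ A] [IsScalarTower Λ A A]

/-- The ring homomorphism `Λ → A`, `c ↦ c • 1`. -/
def iota : Λ →+* A where
  toFun c := c • (1 : A)
  map_one' := one_smul _ _
  map_mul' c d := by rw [smul_mul_assoc, one_mul, mul_smul]
  map_zero' := zero_smul _ _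
  map_add' c d := add_smul _ _ _

variable {Λ A}

lemma iota_apply (c : Λ) : iota Λ A c = c • (1 : A) := rfl

lemma iota_mul (c : Λ) (a : A) : iota Λ A c * a = c • a := by
  rw [iota_apply, smul_mul_assoc, one_mul]

/-- An `A`-module as a `Λ`-module. -/
@[instance_reducible]
def LMod (Λ A : Type) [CommRing Λ] [Ring A] [Module Λ A] [IsScalarTower Λ A A]
    (X : Type) [AddCommGroup X] [Module A X] : Module Λ X :=
  Module.compHom X (iota Λ A)

lemma LMod_tower (X : Type) [AddCommGroup X] [Module A X] :
    letI := LMod Λ A X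
    IsScalarTower Λ A X := by
  letI := LMod Λ A X
  refine ⟨fun c a x => ?_⟩
  change (c • a) • x = (iota Λ A c) • a • x
  rw [← mul_smul, iota_mul]

end Iota

section Coind

variable (Λ A D : Type) [CommRing Λ] [Ring A] [Module Λ A] [IsScalarTower Λ A A]
  [AddCommGroup D] [Module Λ D]

/-- The coinduced module `Hom_Λ(A, D)`. -/
def Coind : Type := A →ₗ[Λ] D

noncomputable instance : AddCommGroup (Coind Λ A D) := inferInstanceAs (AddCommGroup (A →ₗ[Λ] D))

variable {Λ A D}

/-- underlying linear map -/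
def Coind.lin (f : Coind Λ A D) : A →ₗ[Λ] D := f

/-- make an element -/
def Coind.mk (f : A →ₗ[Λ] D) : Coind Λ A D := f

lemma Coind.ext' {f g : Coind Λ A D} (h : ∀ a, f.lin a = g.lin a) : f = g :=
  LinearMap.ext h

@[simp] lemma Coind.mk_lin (f : A →ₗ[Λ] D) (a : A) : (Coind.mk f).lin a = f a := rfl
@[simp] lemma Coind.add_lin (f g : Coind Λ A D) (a : A) :
    (f + g).lin a = f.lin a + g.lin a := rfl
@[simp] lemma Coind.zero_lin (a : A) : (0 : Coind Λ A D).lin a = 0 := rfl

/-- right multiplication as a `Λ`-linear map -/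
def mulR (Λ : Type) {A : Type} [CommRing Λ] [Ring A] [Module Λ A] [IsScalarTower Λ A A] (a : A) :
    A →ₗ[Λ] A where
  toFun x := x * a
  map_add' x y := add_mul x y a
  map_smul' c x := by rw [RingHom.id_apply, smul_mul_assoc]

noncomputable instance : Module A (Coind Λ A D) where
  smul a f := Coind.mk (f.lin.comp (mulR Λ a))
  one_smul f := Coind.ext' fun x => congrArg f.lin (mul_one x)
  mul_smul a b f := Coind.ext' fun x => congrArg f.lin (mul_assoc x a b).symm
  smul_zero a := rfl
  smul_add a f g := rfl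
  add_smul a b f := Coind.ext' fun x => by
    change f.lin (x * (a + b)) = f.lin (x * a) + f.lin (x * b)
    rw [mul_add, map_add]
  zero_smul f := Coind.ext' fun x => by
    change f.lin (x * 0) = 0
    rw [mul_zero, map_zero]

@[simp] lemma Coind.smul_lin (a : A) (f : Coind Λ A D) (x : A) :
    (a • f).lin x = f.lin (x * a) := rfl

/-- functoriality -/
def Coind.map {D' : Type} [AddCommGroup D'] [Module Λ D'] (d : D →ₗ[Λ] D') :
    Coind Λ A D →ₗ[A] Coind Λ A D' where
  toFun f := Coind.mk (d.comp f.lin)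
  map_add' f g := Coind.ext' fun x => by
    change d (f.lin x + g.lin x) = d (f.lin x) + d (g.lin x)
    rw [map_add]
  map_smul' a f := rfl

@[simp] lemma Coind.map_lin {D' : Type} [AddCommGroup D'] [Module Λ D'] (d : D →ₗ[Λ] D')
    (f : Coind Λ A D) (x : A) : (Coind.map d f).lin x = d (f.lin x) := rfl

lemma Coind.map_exact [Module.Projective Λ A] (d : D →ₗ[Λ] D) (hd : Function.Exact d d) :
    Function.Exact (Coind.map d : Coind Λ A D →ₗ[A] Coind Λ A D) (Coind.map d) := by
  intro f
  constructor
  · intro hf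
    have h1 : ∀ a, f.lin a ∈ LinearMap.range d := fun a =>
      (hd (f.lin a)).1 (congrArg (fun u : Coind Λ A D => u.lin a) hf)
    obtain ⟨g, hg⟩ := Module.projective_lifting_property d.rangeRestrict
      (f.lin.codRestrict (LinearMap.range d) h1) d.surjective_rangeRestrict
    refine ⟨Coind.mk g, Coind.ext' fun a => ?_⟩
    have := congrArg Subtype.val (LinearMap.congr_fun hg a)
    exact this
  · rintro ⟨g, rfl⟩
    refine Coind.ext' fun a => ?_
    exact (hd _).2 ⟨g.lin a, rfl⟩

/-- Vanishing of `Ext¹` into a coinduced module. -/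
theorem coind_ext {B : Type} {e : B → Λ}
    (hD : ∀ (N M : Type) [AddCommGroup N] [Module Λ N] [AddCommGroup M] [Module Λ M]
        (π : N →ₗ[Λ] M), Function.Surjective π → ∀ s : B → M →ₗ[Λ] (M →₀ Λ),
        (∀ b m, Finsupp.linearCombination Λ id (s b m) = e b • m) →
        ∀ φ : LinearMap.ker π →ₗ[Λ] D, ∃ ψ : N →ₗ[Λ] D, ∀ x : LinearMap.ker π, ψ x = φ x)
    (F : Type) [AddCommGroup F] [Module A F]
    (hF : letI := LMod Λ A F
      ∀ b, ∃ s : F →ₗ[Λ] (F →₀ Λ), ∀ x, Finsupp.linearCombination Λ id (s x) = e b • x) :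
    Subsingleton (Ext (ModuleCat.of A F) (ModuleCat.of A (Coind Λ A D)) 1) := by
  letI := LMod Λ A F
  haveI := LMod_tower (Λ := Λ) (A := A) F
  let π : (F →₀ A) →ₗ[A] F := Finsupp.linearCombination A id
  have hπ : Function.Surjective π := fun x => ⟨Finsupp.single x 1, by simp [π]⟩
  refine ext_subsingleton_of_extend π hπ fun φ => ?_
  choose s hs using hF
  let πΛ : (F →₀ A) →ₗ[Λ] F := π.restrictScalars Λ
  let φΛ : LinearMap.ker πΛ →ₗ[Λ] D :=
    { toFun := fun x => (φ ⟨x.1, x.2⟩).lin 1
      map_add' := by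
        intro x y
        have h1 : (⟨(x + y).1, (x + y).2⟩ : LinearMap.ker π) =
          ⟨x.1, x.2⟩ + ⟨y.1, y.2⟩ := rfl
        rw [h1, map_add]
        rfl
      map_smul' := by
        intro c x
        have h1 : (⟨(c • x).1, (c • x).2⟩ : LinearMap.ker π) =
          (iota Λ A c) • (⟨x.1, x.2⟩ : LinearMap.ker π) := by
          apply Subtype.ext
          change c • x.1 = (iota Λ A c) • x.1
          rw [iota_apply, smul_assoc, one_smul]
        rw [h1, map_smul, Coind.smul_lin, one_mul, iota_apply, map_smul]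
        rfl }
  obtain ⟨ψ, hψ⟩ := hD (F →₀ A) F πΛ hπ s hs φΛ
  let Ψ : (F →₀ A) →ₗ[A] Coind Λ A D :=
    { toFun := fun q => Coind.mk
        { toFun := fun a => ψ (a • q)
          map_add' := by
            intro a b
            rw [add_smul, map_add]
          map_smul' := by
            intro c a
            rw [RingHom.id_apply, smul_assoc, map_smul] }
      map_add' := by
        intro q q'
        refine Coind.ext' fun a => ?_
        change ψ (a • (q + q')) = ψ (a • q) + ψ (a • q')
        rw [smul_add, map_add]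
      map_smul' := by
        intro b q
        refine Coind.ext' fun a => ?_
        change ψ (a • b • q) = ψ ((a * b) • q)
        rw [mul_smul] }
  refine ⟨Ψ, fun x => Coind.ext' fun a => ?_⟩
  change ψ (a • (x : F →₀ A)) = _
  have h1 : a • (x : F →₀ A) ∈ LinearMap.ker πΛ := (a • x).2
  have h2 := hψ ⟨_, h1⟩
  change ψ (a • (x : F →₀ A)) = (φ ⟨a • (x : F →₀ A), h1⟩).lin 1 at h2
  rw [h2]
  have h3 : (⟨a • (x : F →₀ A), h1⟩ : LinearMap.ker π) = a • x := rfl
  rw [h3, map_smul, Coind.smul_lin, one_mul]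

end Coind

end Pool.Agent.RelCotorsion
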