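import Pool.Agent.RelCotorsion.StepA

set_option autoImplicit false

namespace Pool.Agent.RelCotorsion

open Cardinal

variable {B Λ : Type} [CommRing Λ]
variable {e : B → Λ} {σ : B → Λ →+* Λ}

/-! ### Free modules are fresh -/

/-- coefficientwise action of `σ a` -/
noncomputable def tauF (σ : B → Λ →+* Λ) (I : Type) (a : B) : (I →₀ Λ) →+ (I →₀ Λ) :=
  Finsupp.mapRange.addMonoidHom (σ a).toAddMonoidHom

lemma tauF_apply (I : Type) (a : B) (p : I →₀ Λ) (i : I) : tauF σ I a p i = σ a (p i) := by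
  simp [tauF]

lemma Fresh.freshMod (h : Fresh e σ) (I : Type) : FreshMod σ (tauF σ I) where
  smul a l p := by
    ext i
    rw [tauF_apply, Finsupp.smul_apply, Finsupp.smul_apply, tauF_apply, smul_eq_mul, smul_eq_mul,
      map_mul]
  fin p := by
    refine (Set.Finite.biUnion p.support.finite_toSet fun j _ => h.fin (p j)).subset ?_
    intro a ha
    rw [Set.mem_ofPred_eq] at ha
    simp only [Set.mem_iUnion]
    by_contra hcon
    push Not at hcon
    apply ha
    ext i
    rw [tauF_apply]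
    by_cases hi : i ∈ p.support
    · by_contra hne
      exact hcon i hi hne
    · rw [Finsupp.notMem_support_iff] at hi
      rw [hi, map_zero]

/-! ### The differential module `P` -/

/-- The module `P`. -/
abbrev PP (B Λ : Type) [CommRing Λ] : Type := List B →₀ Λ

/-- prepend a letter -/
noncomputable def hh (Λ : Type) [CommRing Λ] (b : B) : PP B Λ →ₗ[Λ] PP B Λ :=
  Finsupp.lmapDomain Λ Λ (List.cons b)

/-- the differential on basis elements -/
noncomputable def dl (e : B → Λ) : List B → PP B Λ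
  | [] => 0
  | (b :: w) => e b • Finsupp.single w 1 - hh Λ b (dl e w)

/-- the differential -/
noncomputable def dd (e : B → Λ) : PP B Λ →ₗ[Λ] PP B Λ := Finsupp.linearCombination Λ (dl e)

lemma dd_single (w : List B) : dd e (Finsupp.single w 1) = dl e w := by
  simp [dd]

lemma hh_single (b : B) (w : List B) :
    hh Λ b (Finsupp.single w 1) = Finsupp.single (b :: w) 1 := by
  simp [hh]

lemma dd_hh (b : B) (p : PP B Λ) : dd e (hh Λ b p) = e b • p - hh Λ b (dd e p) := by
  have : (dd e).comp (hh Λ b) = LinearMap.lsmul Λ _ (e b) - (hh Λ b).comp (dd e) := by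
    apply Finsupp.lhom_ext'
    intro w
    apply LinearMap.ext_ring
    change dd e (hh Λ b (Finsupp.single w 1)) =
      e b • Finsupp.single w 1 - hh Λ b (dd e (Finsupp.single w 1))
    rw [hh_single, dd_single, dd_single, dl]
  exact LinearMap.congr_fun this p

lemma dd_dl (w : List B) : dd e (dl e w) = 0 := by
  induction w with
  | nil => rw [dl, map_zero]
  | cons b w ih =>
    rw [dl, map_sub, map_smul, dd_single, dd_hh, ih, map_zero, sub_zero, sub_self]

lemma dd_dd (p : PP B Λ) : dd e (dd e p) = 0 := by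
  have : (dd e).comp (dd e) = 0 := by
    apply Finsupp.lhom_ext'
    intro w
    apply LinearMap.ext_ring
    change dd e (dd e (Finsupp.single w 1)) = 0
    rw [dd_single, dd_dl]
  exact LinearMap.congr_fun this p

lemma hh_nil (b : B) (p : PP B Λ) : hh Λ b p [] = 0 := by
  have : (Finsupp.lapply []).comp (hh Λ b) = (0 : PP B Λ →ₗ[Λ] Λ) := by
    apply Finsupp.lhom_ext'
    intro w
    apply LinearMap.ext_ring
    change hh Λ b (Finsupp.single w 1) [] = 0
    rw [hh_single, Finsupp.single_apply, if_neg (by simp)]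
  exact LinearMap.congr_fun this p

/-- The ideal generated by the elements `e b`. -/
def mm (e : B → Λ) : Ideal Λ := Ideal.span (Set.range e)

lemma e_mem_mm (b : B) : e b ∈ mm e := Ideal.subset_span ⟨b, rfl⟩

lemma dl_nil_mem (w : List B) : dl e w [] ∈ mm e := by
  cases w with
  | nil => rw [dl]; exact zero_mem _
  | cons b w =>
    rw [dl, Finsupp.sub_apply, hh_nil, sub_zero, Finsupp.smul_apply, smul_eq_mul]
    exact Ideal.mul_mem_right _ _ (e_mem_mm b)

lemma dd_nil_mem (p : PP B Λ) : dd e p [] ∈ mm e := by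
  rw [dd, Finsupp.linearCombination_apply, Finsupp.sum, Finsupp.finsetSum_apply]
  refine Ideal.sum_mem _ fun w _ => ?_
  rw [Finsupp.smul_apply]
  exact Ideal.mul_mem_left _ _ (dl_nil_mem w)

/-! ### Modules killed by all `e b` are injective -/

lemma Fresh.exists_local (h : Fresh e σ) {x : Λ} (hx : x ∈ mm e) : ∃ y ∈ mm e, y * x = x := by
  induction hx using Submodule.span_induction with
  | mem x hx =>
    obtain ⟨b, rfl⟩ := hx
    exact ⟨e b, e_mem_mm b, h.idem b⟩
  | zero => exact ⟨0, zero_mem _, by rw [zero_mul]⟩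
  | add x x' _ _ ih ih' =>
    obtain ⟨y, hy, hyx⟩ := ih
    obtain ⟨y', hy', hyx'⟩ := ih'
    refine ⟨y + y' - y * y', sub_mem (add_mem hy hy') (Ideal.mul_mem_right _ _ hy), ?_⟩
    have h1 : (y + y' - y * y') * (x + x') =
        (y * x) + (y' * x' ) + (y' * x - y' * (y * x)) + (y * x' - y * (y' * x')) := by ring
    rw [h1, hyx, hyx', sub_self, sub_self, add_zero, add_zero]
  | smul a x _ ih =>
    obtain ⟨y, hy, hyx⟩ := ih
    exact ⟨y, hy, by rw [smul_eq_mul, mul_left_comm, hyx]⟩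

lemma smul_eq_zero_of_mem {V : Type} [AddCommGroup V] [Module Λ V]
    (hV : ∀ (b : B) (v : V), e b • v = 0) {x : Λ} (hx : x ∈ mm e) (v : V) : x • v = 0 := by
  induction hx using Submodule.span_induction with
  | mem x hx =>
    obtain ⟨b, rfl⟩ := hx
    exact hV b v
  | zero => exact zero_smul _ _
  | add x x' _ _ ih ih' => rw [add_smul, ih, ih', add_zero]
  | smul a x _ ih => rw [smul_eq_mul, mul_smul, ih, smul_zero]

lemma Fresh.baer (h : Fresh e σ) (hm : (mm e).IsMaximal) {V : Type} [AddCommGroup V] [Module Λ V]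
    (hV : ∀ (b : B) (v : V), e b • v = 0) : Module.Baer Λ V := by
  intro I g
  have h0 : ∀ x (hx : x ∈ I), x ∈ mm e → g ⟨x, hx⟩ = 0 := by
    intro x hx hxm
    obtain ⟨y, hy, hyx⟩ := h.exists_local hxm
    have h1 : (⟨x, hx⟩ : I) = y • ⟨x, hx⟩ := Subtype.ext hyx.symm
    rw [h1, map_smul, smul_eq_zero_of_mem hV hy]
  by_cases hI : I ≤ mm e
  · exact ⟨0, fun x hx => (h0 x hx (hI hx)).symm⟩
  · obtain ⟨x0, hx0, hx0m⟩ := Set.not_subset.1 hI
    obtain ⟨c, m, hm', hcm⟩ := hm.exists_inv hx0m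
    refine ⟨LinearMap.toSpanSingleton Λ V (c • g ⟨x0, hx0⟩), fun x hx => ?_⟩
    rw [LinearMap.toSpanSingleton_apply, ← mul_smul, ← map_smul]
    have h1 : (⟨x, hx⟩ : I) = (x * c) • ⟨x0, hx0⟩ + ⟨x * m, I.mul_mem_right _ hx⟩ := by
      apply Subtype.ext
      change x = x * c * x0 + x * m
      rw [mul_assoc, ← mul_add, hcm, mul_one]
    rw [h1, map_add, h0 _ _ (Ideal.mul_mem_left _ _ hm'), add_zero]

/-! ### Functoriality of `L` -/

section Lmap

variable {P : Type} [AddCommGroup P] [Module Λ P]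

/-- functoriality of `L` -/
noncomputable def Lmap (e : B → Λ) (u : P →ₗ[Λ] P) : LL P e →ₗ[Λ] LL P e :=
  (W P e).mapQ (W P e) (u.compLeft B) (by
    rintro x ⟨p, hp⟩
    refine ⟨u p, fun b => ?_⟩
    rw [LinearMap.compLeft_apply, Function.comp_apply, ← map_smul, hp, map_smul])

lemma Lmap_mk (u : P →ₗ[Λ] P) (x : B → P) :
    Lmap e u ((W P e).mkQ x) = (W P e).mkQ (fun b => u (x b)) := rfl

end Lmap

/-- the differential on `L(P)` -/
noncomputable def dL (e : B → Λ) : LL (PP B Λ) e →ₗ[Λ] LL (PP B Λ) e := Lmap e (dd e)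

lemma dL_dL (z : LL (PP B Λ) e) : dL e (dL e z) = 0 := by
  obtain ⟨x, rfl⟩ := (W (PP B Λ) e).mkQ_surjective z
  rw [dL, Lmap_mk, Lmap_mk]
  simp only [dd_dd]
  exact map_zero _

lemma dL_hL (b : B) (z : LL (PP B Λ) e) :
    dL e (Lmap e (hh Λ b) z) + Lmap e (hh Λ b) (dL e z) = e b • z := by
  obtain ⟨x, rfl⟩ := (W (PP B Λ) e).mkQ_surjective z
  rw [dL, Lmap_mk, Lmap_mk, Lmap_mk, Lmap_mk, ← map_add, ← map_smul]
  congr 1
  funext c
  rw [Pi.add_apply, Pi.smul_apply, dd_hh, sub_add_cancel]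

/-- the homology of `L(P)` -/
abbrev VV (e : B → Λ) : Type :=
  LinearMap.ker (dL e) ⧸ (LinearMap.range (dL e)).comap (LinearMap.ker (dL e)).subtype

lemma VV_kill (b : B) (v : VV e) : e b • v = 0 := by
  obtain ⟨z, rfl⟩ := Submodule.mkQ_surjective _ v
  rw [← map_smul, Submodule.mkQ_apply, Submodule.Quotient.mk_eq_zero, Submodule.mem_comap]
  refine ⟨Lmap e (hh Λ b) z, ?_⟩
  have h1 := dL_hL b (z : LL (PP B Λ) e)
  rw [show dL e z = 0 from z.2, map_zero, add_zero] at h1
  rw [h1]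
  rfl

lemma Fresh.exists_VV [Infinite B] (h : Fresh e σ) (hm : mm e ≠ ⊤) : ∃ v : VV e, v ≠ 0 := by
  let x : B → PP B Λ := fun b => hh Λ b (Finsupp.single [] 1)
  have hdx : ∀ b, dd e (x b) = e b • Finsupp.single [] 1 := by
    intro b
    change dd e (hh Λ b (Finsupp.single [] 1)) = _
    rw [dd_hh, dd_single, dl, map_zero, sub_zero]
  have hz : dL e ((W (PP B Λ) e).mkQ x) = 0 := by
    rw [dL, Lmap_mk, Submodule.mkQ_apply, Submodule.Quotient.mk_eq_zero, mem_W]
    refine ⟨Finsupp.single [] 1, fun b => ?_⟩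
    rw [hdx, ← mul_smul, h.idem]
  refine ⟨Submodule.mkQ _ ⟨(W (PP B Λ) e).mkQ x, hz⟩, ?_⟩
  intro h0
  rw [Submodule.mkQ_apply, Submodule.Quotient.mk_eq_zero, Submodule.mem_comap] at h0
  obtain ⟨z', hz'⟩ := h0
  obtain ⟨x', rfl⟩ := (W (PP B Λ) e).mkQ_surjective z'
  have hz'' : (W (PP B Λ) e).mkQ (fun b => dd e (x' b)) = (W (PP B Λ) e).mkQ x := hz'
  have h1 : (W (PP B Λ) e).mkQ (x - fun b => dd e (x' b)) = 0 := by
    rw [map_sub, hz'']
    exact sub_self _
  rw [Submodule.mkQ_apply, Submodule.Quotient.mk_eq_zero, mem_W] at h1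
  obtain ⟨p, hp⟩ := h1
  have h2 : Finsupp.single [] 1 = dd e p := by
    apply h.diag_injective (h.freshMod (List B))
    funext b
    have := congrArg (dd e) (hp b)
    rw [map_smul, map_smul, Pi.sub_apply, map_sub, dd_dd, sub_zero, hdx, ← mul_smul,
      h.idem] at this
    exact this
  have h3 := dd_nil_mem (e := e) p
  rw [← h2, Finsupp.single_eq_same] at h3
  exact hm ((Ideal.eq_top_iff_one _).2 h3)

/-- The module `D = L(P) × V` with its exact differential. -/
theorem Fresh.exists_D {κ : ℕ → Cardinal.{0}} {T : ℕ → Set B} (hT : Tower κ T)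
    (h : Fresh e σ) (hm : (mm e).IsMaximal) :
    ∃ (D : Type) (_ : AddCommGroup D) (_ : Module Λ D) (d : D →ₗ[Λ] D),
      Function.Exact d d ∧
      (∀ (N M : Type) [AddCommGroup N] [Module Λ N] [AddCommGroup M] [Module Λ M]
        (π : N →ₗ[Λ] M), Function.Surjective π → ∀ s : B → M →ₗ[Λ] (M →₀ Λ),
        (∀ b m, Finsupp.linearCombination Λ id (s b m) = e b • m) →
        ∀ φ : LinearMap.ker π →ₗ[Λ] D, ∃ ψ : N →ₗ[Λ] D, ∀ x : LinearMap.ker π, ψ x = φ x) ∧
      (∀ z : D, (∀ b, e b • z = 0) → d z = 0) ∧ ∃ z : D, z ≠ 0 ∧ ∀ b, e b • z = 0 := by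
  have hinf := hT.infinite
  have hunc := hT.uncountable
  have hP := h.freshMod (List B)
  have hbaer : Module.Baer Λ (VV e) := h.baer hm VV_kill
  obtain ⟨ψ, hψ⟩ := hbaer.extension_property (LinearMap.ker (dL e)).subtype
    (Submodule.subtype_injective _) (Submodule.mkQ _)
  have hψ1 : ∀ z (hz : dL e z = 0), ψ z = Submodule.mkQ _ (⟨z, hz⟩ : LinearMap.ker (dL e)) :=
    fun z hz => LinearMap.congr_fun hψ ⟨z, hz⟩
  have hψ2 : ∀ z, ψ (dL e z) = 0 := by
    intro z
    rw [hψ1 _ (dL_dL z), Submodule.mkQ_apply, Submodule.Quotient.mk_eq_zero, Submodule.mem_comap]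
    exact ⟨z, rfl⟩
  refine ⟨LL (PP B Λ) e × VV e, inferInstance, inferInstance,
    ((dL e).prod ψ).comp (LinearMap.fst Λ _ _), ?_, ?_, ?_, ?_⟩
  · rintro ⟨z, v⟩
    constructor
    · intro h0
      have h0' : (dL e z, ψ z) = (0, 0) := h0
      obtain ⟨h1, h2⟩ := Prod.mk.inj h0'
      rw [hψ1 z h1, Submodule.mkQ_apply, Submodule.Quotient.mk_eq_zero,
        Submodule.mem_comap] at h2
      obtain ⟨y, hy⟩ := h2
      obtain ⟨w, hw⟩ := Submodule.mkQ_surjective _ (v - ψ y)
      refine ⟨(y + w, 0), ?_⟩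
      change (dL e (y + w), ψ (y + w)) = (z, v)
      rw [map_add, map_add, show dL e w = 0 from w.2, hψ1 w w.2, add_zero]
      have hw' : Submodule.mkQ _ (⟨(w : LL (PP B Λ) e), w.2⟩ : LinearMap.ker (dL e)) =
        v - ψ y := hw
      rw [hw', add_sub_cancel]
      exact Prod.ext hy rfl
    · rintro ⟨⟨y, w⟩, hy⟩
      have hy' : (dL e y, ψ y) = (z, v) := hy
      obtain ⟨h1, h2⟩ := Prod.mk.inj hy'
      change (dL e z, ψ z) = 0
      rw [← h1, dL_dL, hψ2]
      rfl
  · intro N M _ _ _ _ π hπ s hs φ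
    obtain ⟨ψ1, h1⟩ := h.extend hT hP π hπ s hs ((LinearMap.fst Λ _ _).comp φ)
    obtain ⟨ψ2, h2⟩ := hbaer.extension_property (LinearMap.ker π).subtype
      (Submodule.subtype_injective _) ((LinearMap.snd Λ _ _).comp φ)
    refine ⟨ψ1.prod ψ2, fun x => ?_⟩
    apply Prod.ext
    · exact h1 x
    · exact LinearMap.congr_fun h2 x
  · rintro ⟨z, v⟩ hz
    have hz1 : z = 0 := h.torsion_free hP z fun b => congrArg Prod.fst (hz b)
    subst hz1
    change (dL e 0, ψ 0) = 0
    rw [map_zero, map_zero]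
    rfl
  · obtain ⟨v, hv⟩ := h.exists_VV hm.ne_top
    refine ⟨(0, v), fun h0 => hv (congrArg Prod.snd h0), fun b => ?_⟩
    apply Prod.ext
    · exact smul_zero _
    · exact VV_kill b v

end Pool.Agent.RelCotorsion
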