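import Mathlib

set_option autoImplicit false

namespace Pool.Agent.RelCotorsion

open Cardinal

section Defs

variable {B Λ P : Type} [CommRing Λ] [AddCommGroup P] [Module Λ P]

/-- A commutative ring `Λ` with idempotents `e b` and endomorphisms `σ b` which send `e b` to `1`;
each element is fixed by all but finitely many `σ b`. -/
structure Fresh (e : B → Λ) (σ : B → Λ →+* Λ) : Prop where
  idem : ∀ b, e b * e b = e b
  self : ∀ b, σ b (e b) = 1
  other : ∀ a b, a ≠ b → σ a (e b) = e b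
  fin : ∀ x, {a | σ a x ≠ x}.Finite
  card : ∀ T : Set B, #{x : Λ | ∀ a, a ∉ T → σ a x = x} ≤ max #T ℵ₀

/-- A module with compatible endomorphisms. -/
structure FreshMod (σ : B → Λ →+* Λ) (τ : B → P →+ P) : Prop where
  smul : ∀ a l p, τ a (l • p) = σ a l • τ a p
  fin : ∀ p, {a | τ a p ≠ p}.Finite

/-- The diagonal map `p ↦ (e b • p)_b`. -/
def diag (e : B → Λ) : P →ₗ[Λ] (B → P) := LinearMap.pi (fun b => LinearMap.lsmul Λ P (e b))

@[simp] lemma diag_apply (e : B → Λ) (p : P) (b : B) : diag e p b = e b • p := rfl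

/-- The kernel of `∏ P → ∏ e_b P → (∏ e_b P) / P`. -/
def W (P : Type) [AddCommGroup P] [Module Λ P] (e : B → Λ) : Submodule Λ (B → P) where
  carrier := {x | ∃ p : P, ∀ b, e b • x b = e b • p}
  add_mem' := by
    rintro x y ⟨p, hp⟩ ⟨q, hq⟩
    exact ⟨p + q, fun b => by rw [Pi.add_apply, smul_add, smul_add, hp, hq]⟩
  zero_mem' := ⟨0, fun b => rfl⟩
  smul_mem' := by
    rintro c x ⟨p, hp⟩
    refine ⟨c • p, fun b => ?_⟩
    rw [Pi.smul_apply, smul_comm, hp, smul_comm]

/-- The module `L(P) = (∏ e_b P) / P`. -/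
abbrev LL (P : Type) [AddCommGroup P] [Module Λ P] (e : B → Λ) : Type := (B → P) ⧸ W P e

variable {e : B → Λ} {σ : B → Λ →+* Λ} {τ : B → P →+ P}

lemma mem_W {x : B → P} : x ∈ W P e ↔ ∃ p : P, ∀ b, e b • x b = e b • p := Iff.rfl

/-- normalized elements -/
def Nrm (e : B → Λ) (x : B → P) : Prop := ∀ b, e b • x b = x b

lemma Fresh.nrm_diag (h : Fresh e σ) (p : P) : Nrm e (diag e p) := by
  intro b
  rw [diag_apply, ← mul_smul, h.idem]

lemma Nrm.sub {x y : B → P} (hx : Nrm e x) (hy : Nrm e y) : Nrm e (x - y) := by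
  intro b
  rw [Pi.sub_apply, smul_sub, hx, hy]

lemma Nrm.add {x y : B → P} (hx : Nrm e x) (hy : Nrm e y) : Nrm e (x + y) := by
  intro b
  rw [Pi.add_apply, smul_add, hx, hy]

lemma Nrm.smul {x : B → P} (hx : Nrm e x) (c : Λ) : Nrm e (c • x) := by
  intro b
  rw [Pi.smul_apply, smul_comm, hx]

lemma Fresh.exists_rep (h : Fresh e σ) (z : LL P e) :
    ∃ x : B → P, Nrm e x ∧ (W P e).mkQ x = z := by
  obtain ⟨x, rfl⟩ := (W P e).mkQ_surjective z
  refine ⟨fun b => e b • x b, fun b => by rw [← mul_smul, h.idem], ?_⟩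
  rw [← sub_eq_zero, ← map_sub, Submodule.mkQ_apply, Submodule.Quotient.mk_eq_zero, mem_W]
  refine ⟨0, fun b => ?_⟩
  rw [Pi.sub_apply, smul_sub, ← mul_smul, h.idem, sub_self, smul_zero]

lemma mkQ_eq_zero_iff {x : B → P} (hx : Nrm e x) :
    (W P e).mkQ x = 0 ↔ ∃ p : P, x = diag e p := by
  rw [Submodule.mkQ_apply, Submodule.Quotient.mk_eq_zero, mem_W]
  constructor
  · rintro ⟨p, hp⟩
    refine ⟨p, ?_⟩
    funext b
    rw [diag_apply, ← hp, hx]
  · rintro ⟨p, rfl⟩
    refine ⟨p, fun b => ?_⟩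
    rw [hx, diag_apply]

lemma mkQ_eq_iff {x y : B → P} (hx : Nrm e x) (hy : Nrm e y) :
    (W P e).mkQ x = (W P e).mkQ y ↔ ∃ p : P, x - y = diag e p := by
  rw [← sub_eq_zero, ← map_sub, mkQ_eq_zero_iff (hx.sub hy)]

lemma Fresh.mkQ_diag (h : Fresh e σ) (p : P) : (W P e).mkQ (diag e p) = 0 :=
  (mkQ_eq_zero_iff (h.nrm_diag p)).2 ⟨p, rfl⟩

/-- If `τ a` fixes `p` then `e a • p = 0` only for `p = 0`. -/
lemma Fresh.eq_zero_of_smul (h : Fresh e σ) (hP : FreshMod σ τ) {a : B} {p : P}
    (ha : τ a p = p) (h0 : e a • p = 0) : p = 0 := by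
  have := congrArg (τ a) h0
  rw [hP.smul, h.self, one_smul, ha, map_zero] at this
  exact this

lemma Fresh.eq_of_smul (h : Fresh e σ) (hP : FreshMod σ τ) {a : B} {p q : P}
    (ha : τ a p = p) (hq : τ a q = q) (h0 : e a • p = e a • q) : p = q := by
  rw [← sub_eq_zero]
  refine h.eq_zero_of_smul hP (a := a) ?_ ?_
  · rw [map_sub, ha, hq]
  · rw [smul_sub, h0, sub_self]

lemma Fresh.diag_injective [Infinite B] (h : Fresh e σ) (hP : FreshMod σ τ) :
    Function.Injective (diag e : P →ₗ[Λ] (B → P)) := by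
  rw [injective_iff_map_eq_zero]
  intro p hp
  obtain ⟨a, ha⟩ := (hP.fin p).exists_notMem
  simp only [Set.mem_ofPred_eq, not_not] at ha
  exact h.eq_zero_of_smul hP ha (congrFun hp a)

/-- The first key fact: `L(P)` has no elements killed by all `e b`. -/
theorem Fresh.torsion_free [Uncountable B] (h : Fresh e σ) (hP : FreshMod σ τ) (z : LL P e)
    (hz : ∀ b, e b • z = 0) : z = 0 := by
  obtain ⟨x, hx, rfl⟩ := h.exists_rep z
  have h1 : ∀ a, ∃ p : P, e a • x = diag e p := by
    intro a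
    rw [← mkQ_eq_zero_iff (hx.smul _), map_smul, hz]
  choose p hp using h1
  have hpc : ∀ a b, e a • x b = e b • p a := fun a b => congrFun (hp a) b
  -- a countably infinite set of indices
  obtain ⟨T, hTc⟩ : ∃ T : Set B, T.Countable ∧ T.Infinite := by
    obtain ⟨f⟩ := Infinite.natEmbedding B |> fun f => (⟨f⟩ : Nonempty (ℕ ↪ B))
    exact ⟨Set.range f, Set.countable_range f, Set.infinite_range_of_injective f.injective⟩
  obtain ⟨a, ha⟩ : ∃ a, a ∉ T ∪ ⋃ b ∈ T, {a | τ a (x b) ≠ x b} := by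
    by_contra hcon
    push Not at hcon
    have hc : (T ∪ ⋃ b ∈ T, {a | τ a (x b) ≠ x b}).Countable :=
      hTc.1.union (Set.Countable.biUnion hTc.1 fun b _ => (hP.fin _).countable)
    have : (Set.univ : Set B).Countable := hc.mono fun a _ => hcon a
    exact Set.not_countable_univ this
  simp only [Set.mem_union, Set.mem_iUnion, Set.mem_ofPred_eq, not_or, not_exists, not_not] at ha
  set q := τ a (p a) with hq
  have h2 : ∀ b ∈ T, x b = e b • q := by
    intro b hb
    have := congrArg (τ a) (hpc a b)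
    rw [hP.smul, h.self, one_smul, ha.2 b hb, hP.smul, h.other] at this
    · exact this
    · rintro rfl
      exact ha.1 hb
  rw [mkQ_eq_zero_iff hx]
  refine ⟨q, ?_⟩
  funext c
  rw [diag_apply]
  obtain ⟨b, hbT, hb⟩ : ∃ b ∈ T, τ b (x c - e c • q) = x c - e c • q := by
    have := hTc.2.exists_notMem_finite (hP.fin (x c - e c • q))
    obtain ⟨b, hb, hb'⟩ := this
    exact ⟨b, hb, by simpa using hb'⟩
  have h3 : e b • (x c - e c • q) = 0 := by
    have h4 : e b • x c = e b • (e c • q) := by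
      calc e b • x c = e c • p b := hpc b c
        _ = e b • (e c • p b) := by
            have := congrArg (fun y => e b • y) (hpc b c)
            simp only [← mul_smul, h.idem] at this
            rw [← mul_smul, ← this, hpc b c]
        _ = e c • (e b • p b) := smul_comm _ _ _
        _ = e c • (e b • x b) := by rw [← hpc b b]
        _ = e c • x b := by rw [hx b]
        _ = e c • (e b • q) := by rw [h2 b hbT]
        _ = e b • (e c • q) := smul_comm _ _ _
    rw [smul_sub, h4, sub_self]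
  exact sub_eq_zero.1 (h.eq_zero_of_smul hP hb h3)

end Defs

end Pool.Agent.RelCotorsion
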