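import Pool.Agent.RelCotorsion.Diff

set_option autoImplicit false

namespace Pool.Agent.RelCotorsion

open Cardinal

/-! ### The index set -/

/-- The disjoint union of sets of cardinality `ℵ_n`, `n < ω`. -/
def Bt : Type := Σ n : ℕ, (Cardinal.aleph n : Cardinal.{0}).out

/-- the first pieces -/
def Tt (n : ℕ) : Set Bt := {x | x.1 ≤ n}

lemma mem_Tt {n : ℕ} {x : Bt} : x ∈ Tt n ↔ x.1 ≤ n := Iff.rfl

lemma tower : Tower (fun n : ℕ => Cardinal.aleph n) Tt where
  inf n := aleph0_le_aleph n
  mono n m hnm x hx := mem_Tt.2 (le_trans (mem_Tt.1 hx) hnm)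
  all b := ⟨b.1, mem_Tt.2 le_rfl⟩
  card n := by
    have h1 : Tt n ⊆ ⋃ m ∈ Set.Iic n, Set.range (fun w : (Cardinal.aleph m).out =>
        (⟨m, w⟩ : Bt)) := by
      rintro ⟨m, w⟩ hx
      exact Set.mem_biUnion (mem_Tt.1 hx) ⟨w, rfl⟩
    refine (mk_le_mk_of_subset h1).trans ?_
    refine card_biUnion_le (aleph0_le_aleph n) (card_finite_le (aleph0_le_aleph n)
      (Set.finite_Iic n)) _ fun m hm => ?_
    refine mk_range_le.trans ?_
    rw [mk_out]
    exact aleph_le_aleph.2 (by exact_mod_cast hm)
  fresh n S hS := by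
    by_contra hcon
    push Not at hcon
    have h1 : Set.range (fun w : (Cardinal.aleph ((n + 1 : ℕ) : Ordinal)).out =>
        (⟨n + 1, w⟩ : Bt)) ⊆ S := by
      rintro _ ⟨w, rfl⟩
      exact hcon _ (mem_Tt.2 le_rfl)
    have h2 := (mk_le_mk_of_subset h1).trans hS
    rw [mk_range_eq _ (fun w w' h => by
      have := Sigma.mk.inj h
      exact eq_of_heq this.2), mk_out] at h2
    have h3 : (Cardinal.aleph (n : Ordinal)) < Cardinal.aleph ((n + 1 : ℕ) : Ordinal) :=
      aleph_lt_aleph.2 (by exact_mod_cast n.lt_succ_self)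
    exact absurd h2 (not_le.2 h3)

/-! ### The ring -/

/-- Finite subsets of `B`; the multiplication is the union. -/
@[ext] structure FS (B : Type) where
  /-- the subset -/
  s : Finset B

variable {B : Type}

open Classical in
noncomputable instance : CommMonoid (FS B) where
  mul x y := ⟨x.s ∪ y.s⟩
  one := ⟨∅⟩
  mul_assoc x y z := FS.ext (Finset.union_assoc _ _ _)
  one_mul x := FS.ext (Finset.empty_union _)
  mul_one x := FS.ext (Finset.union_empty _)
  mul_comm x y := FS.ext (Finset.union_comm _ _)

open Classical in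
lemma FS.mul_s (x y : FS B) : (x * y).s = x.s ∪ y.s := rfl
lemma FS.one_s : (1 : FS B).s = ∅ := rfl

open Classical in
/-- erase an element -/
noncomputable def er (a : B) : FS B →* FS B where
  toFun x := ⟨x.s.erase a⟩
  map_one' := FS.ext (by rw [FS.one_s]; exact Finset.erase_empty a)
  map_mul' x y := FS.ext (by rw [FS.mul_s, FS.mul_s]; exact Finset.erase_union_distrib _ _ _)

open Classical in
/-- map by a permutation -/
noncomputable def mp (g : Equiv.Perm B) : FS B →* FS B where
  toFun x := ⟨x.s.map g.toEmbedding⟩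
  map_one' := FS.ext (by rw [FS.one_s]; exact Finset.map_empty _)
  map_mul' x y := FS.ext (by rw [FS.mul_s, FS.mul_s]; exact Finset.map_union _ _)

variable (k : Type) [Field k]

/-- The free commutative `k`-algebra on idempotents `e b`, `b ∈ B`. -/
abbrev Lam (k B : Type) [Field k] : Type := MonoidAlgebra k (FS B)

/-- the idempotents -/
noncomputable def ee (b : B) : Lam k B := MonoidAlgebra.single ⟨{b}⟩ 1

/-- the endomorphisms -/
noncomputable def ss (a : B) : Lam k B →+* Lam k B := MonoidAlgebra.mapDomainRingHom k (er a)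

lemma ss_single (a : B) (S : FS B) (c : k) :
    ss k a (MonoidAlgebra.single S c) = MonoidAlgebra.single (er a S) c := by
  simp [ss]

variable {k}

lemma ss_eq_of_notMem {x : Lam k B} {a : B} (ha : ∀ S ∈ x.coeff.support, a ∉ S.s) :
    ss k a x = x := by
  classical
  apply MonoidAlgebra.ext
  change Finsupp.mapDomain (er a) x.coeff = x.coeff
  conv_rhs => rw [← Finsupp.mapDomain_id (v := x.coeff)]
  refine Finsupp.mapDomain_congr fun S hS => ?_
  exact FS.ext (Finset.erase_eq_of_notMem (ha S hS))

lemma notMem_of_ss_eq {x : Lam k B} {a : B} (h : ss k a x = x) {S : FS B}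
    (hS : S ∈ x.coeff.support) : a ∉ S.s := by
  classical
  have h1 : Finsupp.mapDomain (er a) x.coeff = x.coeff := congrArg MonoidAlgebra.coeff h
  rw [← h1] at hS
  have h2 := Finsupp.mapDomain_support hS
  rw [Finset.mem_image] at h2
  obtain ⟨S', -, rfl⟩ := h2
  exact Finset.notMem_erase a _

lemma fresh_ring [Countable k] : Fresh (ee k : B → Lam k B) (ss k) where
  idem b := by
    classical
    rw [ee, MonoidAlgebra.single_mul_single, mul_one]
    congr 1
    exact FS.ext (by rw [FS.mul_s]; exact Finset.union_self _)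
  self b := by
    classical
    rw [ee, ss_single, MonoidAlgebra.one_def]
    congr 1
    exact FS.ext (Finset.erase_singleton b)
  other a b hab := by
    classical
    rw [ee, ss_single]
    congr 1
    refine FS.ext ?_
    refine Finset.erase_eq_of_notMem ?_
    rw [Finset.mem_singleton]
    exact hab
  fin x := by
    refine (Set.Finite.biUnion x.coeff.support.finite_toSet
      fun S _ => S.s.finite_toSet).subset ?_
    intro a ha
    by_contra hcon
    refine ha (ss_eq_of_notMem fun S hS haS => hcon ?_)
    simp only [Set.mem_iUnion]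
    exact ⟨S, hS, haS⟩
  card T := by
    classical
    have hκ : ℵ₀ ≤ max #T ℵ₀ := le_max_right _ _
    have h1 : #(Finset T) ≤ max #T ℵ₀ := by
      have h2 : #(Finset T) ≤ #(List T) :=
        mk_le_of_surjective (f := List.toFinset) (fun s => ⟨s.toList, s.toList_toFinset⟩)
      refine h2.trans ((mk_list_le_max _).trans ?_)
      rw [max_comm]
    have h2 : #k ≤ max #T ℵ₀ := mk_le_aleph0.trans hκ
    refine le_trans ?_ (card_finsupp_le hκ h1 h2)
    let φ : Finset T → FS B := fun F => ⟨F.map (Function.Embedding.subtype _)⟩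
    have hφ : Function.Injective φ := fun F F' h =>
      Finset.map_injective _ (congrArg FS.s h)
    let f : {x : Lam k B | ∀ a, a ∉ T → ss k a x = x} → (Finset T →₀ k) := fun x =>
      x.1.coeff.comapDomain φ hφ.injOn
    refine mk_le_of_injective (f := f) ?_
    intro x y hxy
    apply Subtype.ext
    apply MonoidAlgebra.ext
    ext S
    by_cases hS : (S.s : Set B) ⊆ T
    · have h3 : S = φ (S.s.subtype (· ∈ T)) := by
        refine FS.ext ?_
        change S.s = (S.s.subtype (· ∈ T)).map (Function.Embedding.subtype _)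
        rw [Finset.subtype_map, Finset.filter_true_of_mem (fun b hb => hS hb)]
      have h4 := congrArg (fun u : Finset T →₀ k => u (S.s.subtype (· ∈ T))) hxy
      simp only [f, Finsupp.comapDomain_apply] at h4
      rw [h3]
      exact h4
    · obtain ⟨a, haS, haT⟩ := Set.not_subset.1 hS
      have h5 : ∀ z : {x : Lam k B | ∀ a, a ∉ T → ss k a x = x}, z.1.coeff S = 0 := by
        intro z
        by_contra hne
        exact notMem_of_ss_eq (z.2 a haT) (Finsupp.mem_support_iff.2 hne) haS
      rw [h5, h5]

end Pool.Agent.RelCotorsion
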