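import Pool.Agent.RelCotorsion.Coind

set_option autoImplicit false

namespace Pool.Agent.RelCotorsion

open CategoryTheory Abelian

variable {B Λ A D : Type} [CommRing Λ] [Ring A] [Module Λ A] [IsScalarTower Λ A A]
  [AddCommGroup D] [Module Λ D] {e : B → Λ} {σ : B → Λ →+* Λ}

/-- Conjugation carries the factorization for `e b₀` to the one for `e b`. -/
lemma conj_factor (X : Type) [AddCommGroup X] [Module A X] (g : Λ ≃+* Λ) (u v : A)
    (huv : u * v = 1) (hvu : v * u = 1) (hu : ∀ c, u * iota Λ A c = iota Λ A (g c) * u)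
    (c0 c1 : Λ) (hg : g c0 = c1) :
    letI := LMod Λ A X
    (∃ s : X →ₗ[Λ] (X →₀ Λ), ∀ x, Finsupp.linearCombination Λ id (s x) = c0 • x) →
    ∃ s : X →ₗ[Λ] (X →₀ Λ), ∀ x, Finsupp.linearCombination Λ id (s x) = c1 • x := by
  letI := LMod Λ A X
  haveI := LMod_tower (Λ := Λ) (A := A) X
  rintro ⟨s, hs⟩
  have hux : ∀ (c : Λ) (x : X), u • c • x = g c • u • x := by
    intro c x
    have h1 : ∀ (c : Λ) (x : X), c • x = (iota Λ A c) • x := fun _ _ => rfl
    rw [h1, h1, ← mul_smul, ← mul_smul, hu]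
  have hvx : ∀ (c : Λ) (x : X), v • c • x = g.symm c • v • x := by
    intro c x
    have h1 : u • v • c • x = u • g.symm c • v • x := by
      rw [hux, g.apply_symm_apply, ← mul_smul, ← mul_smul, huv, one_smul, one_smul]
    have h2 := congrArg (fun y => v • y) h1
    simp only [← mul_smul v u, hvu, one_smul] at h2
    exact h2
  let t : X →ₗ[Λ] (X →₀ Λ) :=
    { toFun := fun x => Finsupp.mapDomain (fun y => u • y)
        (Finsupp.mapRange g (map_zero g) (s (v • x)))
      map_add' := by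
        intro x y
        rw [smul_add, map_add, Finsupp.mapRange_add (fun c d => map_add g c d),
          Finsupp.mapDomain_add]
      map_smul' := by
        intro c x
        rw [hvx, map_smul, RingHom.id_apply, ← Finsupp.mapDomain_smul]
        congr 1
        ext y
        rw [Finsupp.mapRange_apply, Finsupp.smul_apply, Finsupp.smul_apply,
          Finsupp.mapRange_apply, smul_eq_mul, map_mul, g.apply_symm_apply, smul_eq_mul] }
  refine ⟨t, fun x => ?_⟩
  change Finsupp.linearCombination Λ id (Finsupp.mapDomain (fun y => u • y)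
        (Finsupp.mapRange g (map_zero g) (s (v • x)))) = _
  rw [Finsupp.linearCombination_mapDomain, Finsupp.linearCombination_apply,
    Finsupp.sum_mapRange_index (by intro j; rw [zero_smul])]
  have h1 : ∀ (y : X) (c : Λ), g c • (id ∘ fun y => u • y) y = u • c • id y := by
    intro y c
    rw [hux]
    rfl
  simp only [h1]
  rw [← Finsupp.smul_sum]
  have h2 : ((s (v • x)).sum fun a b => b • id a) = c0 • v • x := by
    rw [← hs, Finsupp.linearCombination_apply]
  rw [h2, hux, hg, ← mul_smul u v, huv, one_smul]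

/-- The left ideal of `A` generated by the `e b`. -/
def JJ (A : Type) [Ring A] [Module Λ A] [IsScalarTower Λ A A] (e : B → Λ) : Submodule A A :=
  Submodule.span A (Set.range fun b => iota Λ A (e b))

lemma iota_mem_JJ {y : Λ} (hy : y ∈ mm e) : iota Λ A y ∈ JJ A e := by
  induction hy using Submodule.span_induction with
  | mem x hx =>
    obtain ⟨b, rfl⟩ := hx
    exact Submodule.subset_span ⟨b, rfl⟩
  | zero => rw [map_zero]; exact zero_mem _
  | add x x' _ _ ih ih' => rw [map_add]; exact add_mem ih ih'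
  | smul a x _ ih =>
    rw [smul_eq_mul, map_mul]
    exact (JJ A e).smul_mem _ ih

lemma Fresh.exists_local_JJ (h : Fresh e σ) {z : A} (hz : z ∈ JJ A e) :
    ∃ y ∈ mm e, z * iota Λ A y = z := by
  induction hz using Submodule.span_induction with
  | mem x hx =>
    obtain ⟨b, rfl⟩ := hx
    exact ⟨e b, e_mem_mm b, by
      change iota Λ A (e b) * iota Λ A (e b) = iota Λ A (e b)
      rw [← map_mul, h.idem]⟩
  | zero => exact ⟨0, zero_mem _, by rw [zero_mul]⟩
  | add x x' _ _ ih ih' =>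
    obtain ⟨y, hy, hyx⟩ := ih
    obtain ⟨y', hy', hyx'⟩ := ih'
    refine ⟨y + y' - y * y', sub_mem (add_mem hy hy') (Ideal.mul_mem_right _ _ hy), ?_⟩
    have h1 : x * (iota Λ A y + iota Λ A y' - iota Λ A y * iota Λ A y') = x := by
      rw [mul_sub, mul_add, ← mul_assoc, hyx, add_sub_cancel_right]
    have h2 : x' * (iota Λ A y + iota Λ A y' - iota Λ A y * iota Λ A y') = x' := by
      rw [← map_mul, mul_comm y y', map_mul, mul_sub, mul_add, ← mul_assoc, hyx',
        add_sub_cancel_left]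
    rw [map_sub, map_add, map_mul, add_mul, h1, h2]
  | smul a x _ ih =>
    obtain ⟨y, hy, hyx⟩ := ih
    exact ⟨y, hy, by rw [smul_eq_mul, mul_assoc, hyx]⟩

/-- The module `A / A m` satisfies the equational criterion for flatness. -/
lemma Fresh.flat_quot (h : Fresh e σ) (n : ℕ) (a : Fin n → A) (x : Fin n → (A ⧸ JJ A e))
    (hx : ∑ i, a i • x i = 0) :
    ∃ (m : ℕ) (b : Fin n → Fin m → A) (y : Fin m → (A ⧸ JJ A e)),
      (∀ i, x i = ∑ j, b i j • y j) ∧ ∀ j, ∑ i, a i * b i j = 0 := by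
  choose x' hx' using fun i => (JJ A e).mkQ_surjective (x i)
  have h1 : ∑ i, a i * x' i ∈ JJ A e := by
    rw [← Submodule.Quotient.mk_eq_zero, ← Submodule.mkQ_apply, map_sum, ← hx]
    refine Finset.sum_congr rfl fun i _ => ?_
    rw [← smul_eq_mul, map_smul, hx']
  obtain ⟨y, hy, hyz⟩ := h.exists_local_JJ h1
  refine ⟨1, fun i _ => x' i * (1 - iota Λ A y), fun _ => (JJ A e).mkQ 1, fun i => ?_,
    fun _ => ?_⟩
  · rw [Fin.sum_univ_one, ← map_smul]
    change x i = (JJ A e).mkQ ((x' i * (1 - iota Λ A y)) * 1)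
    have h2 : (JJ A e).mkQ (x' i * iota Λ A y) = 0 :=
      (Submodule.Quotient.mk_eq_zero _).2 ((JJ A e).smul_mem (x' i) (iota_mem_JJ hy))
    rw [mul_one, mul_sub, mul_one, map_sub, hx', h2, sub_zero]
  · simp only [← mul_assoc]
    rw [← Finset.sum_mul, mul_sub, mul_one, hyz, sub_self]

lemma smul_eq_zero_of_mem_of_kill {V : Type} [AddCommGroup V] [Module Λ V] {z : V}
    (hz : ∀ b, e b • z = 0) {x : Λ} (hx : x ∈ mm e) : x • z = 0 := by
  induction hx using Submodule.span_induction with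
  | mem x hx =>
    obtain ⟨b, rfl⟩ := hx
    exact hz b
  | zero => exact zero_smul _ _
  | add x x' _ _ ih ih' => rw [add_smul, ih, ih', add_zero]
  | smul a x _ ih => rw [smul_eq_mul, mul_smul, ih, smul_zero]

/-- `Ext¹` from the test module does not vanish. -/
theorem not_subsingleton_ext [Module.Projective Λ A]
    (hJ : ∀ b (a : A), iota Λ A (e b) * a ∈ JJ A e) (χ : A →ₗ[Λ] Λ) (hχ1 : χ 1 = 1)
    (hχ : ∀ x b, χ (x * iota Λ A (e b)) ∈ mm e)
    (d : D →ₗ[Λ] D) (hd : Function.Exact d d)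
    (hdz : ∀ z : D, (∀ b, e b • z = 0) → d z = 0) (hz : ∃ z : D, z ≠ 0 ∧ ∀ b, e b • z = 0) :
    ¬ Subsingleton (Ext (ModuleCat.of A (A ⧸ JJ A e))
      (ModuleCat.of A (LinearMap.ker (Coind.map d : Coind Λ A D →ₗ[A] Coind Λ A D))) 1) := by
  intro hE
  obtain ⟨z, hz0, hz⟩ := hz
  let C := Coind Λ A D
  let dc : C →ₗ[A] C := Coind.map d
  have hdc : Function.Exact dc dc := Coind.map_exact d hd
  -- the surjection onto the kernel
  let p : C →ₗ[A] LinearMap.ker dc := dc.codRestrict (LinearMap.ker dc) (fun x => (hdc _).2 ⟨x, rfl⟩)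
  have hp : Function.Surjective p := by
    rintro ⟨y, hy⟩
    obtain ⟨x, hx⟩ := (hdc y).1 hy
    exact ⟨x, Subtype.ext hx⟩
  have hker : LinearMap.ker p = LinearMap.ker dc := LinearMap.ker_codRestrict _ _ _
  have hE' : Subsingleton (Ext (ModuleCat.of A (A ⧸ JJ A e))
      (ModuleCat.of A (LinearMap.ker p)) 1) := by
    rw [hker]
    exact hE
  -- the element
  let w : C := Coind.mk ((LinearMap.toSpanSingleton Λ D z).comp χ)
  have hw_lin : ∀ a, w.lin a = χ a • z := fun a => rfl
  have hw0 : w ≠ 0 := by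
    intro h0
    have := congrArg (fun u : C => u.lin 1) h0
    simp only [hw_lin, hχ1, one_smul] at this
    exact hz0 this
  have hwJ : ∀ b, iota Λ A (e b) • w = 0 := fun b => Coind.ext' fun x => by
    rw [Coind.smul_lin, hw_lin, Coind.zero_lin]
    exact smul_eq_zero_of_mem_of_kill hz (hχ x b)
  have hwd : dc w = 0 := Coind.ext' fun x => by
    change d (χ x • z) = 0
    rw [map_smul, hdz z hz, smul_zero]
  let θ : (A ⧸ JJ A e) →ₗ[A] C := (JJ A e).liftQ (LinearMap.toSpanSingleton A C w) (by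
    rw [JJ, Submodule.span_le]
    rintro _ ⟨b, rfl⟩
    exact hwJ b)
  have hθ : ∀ a, θ ((JJ A e).mkQ a) = a • w := fun a => rfl
  have hθd : ∀ x, dc (θ x) = 0 := by
    intro x
    obtain ⟨a, rfl⟩ := (JJ A e).mkQ_surjective x
    rw [hθ, map_smul, hwd, smul_zero]
  obtain ⟨g, hg⟩ := lift_of_ext_subsingleton p hp hE'
    (θ.codRestrict (LinearMap.ker dc) hθd)
  have hg' : ∀ x, dc (g x) = θ x := fun x => congrArg Subtype.val (hg x)
  have hkill : ∀ b a (x : A ⧸ JJ A e), (iota Λ A (e b) * a) • x = 0 := by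
    intro b a x
    obtain ⟨a', rfl⟩ := (JJ A e).mkQ_surjective x
    rw [← map_smul, smul_eq_mul, mul_assoc]
    exact (Submodule.Quotient.mk_eq_zero _).2 (hJ b _)
  have hzero : ∀ x, dc (g x) = 0 := by
    intro x
    refine Coind.ext' fun a => ?_
    refine hdz _ fun b => ?_
    have h1 : e b • (g x).lin a = ((iota Λ A (e b) * a) • g x).lin 1 := by
      rw [Coind.smul_lin, one_mul, iota_mul, map_smul]
    rw [h1, ← map_smul, hkill, map_zero, Coind.zero_lin]
  have h1 := hθ 1
  rw [← hg', hzero, one_smul] at h1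
  exact hw0 h1.symm

end Pool.Agent.RelCotorsion
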