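import Pool.Agent.RelCotorsion.Ring
import Pool.Agent.RelCotorsion.TestModule

set_option autoImplicit false

namespace Pool.Agent.RelCotorsion

variable {B : Type} {k : Type} [Field k]

/-! ### The augmentation -/

open Classical in
/-- the monoid homomorphism which detects the empty set -/
noncomputable def em (k B : Type) [Field k] : FS B →* k where
  toFun S := if S.s = ∅ then 1 else 0
  map_one' := by rw [FS.one_s, if_pos rfl]
  map_mul' x y := by
    rw [FS.mul_s]
    by_cases hx : x.s = ∅
    · by_cases hy : y.s = ∅
      · rw [if_pos hx, if_pos hy, if_pos (by rw [hx, hy, Finset.union_empty]), mul_one]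
      · rw [if_neg hy, mul_zero, if_neg]
        intro h
        exact hy (Finset.union_eq_empty.1 h).2
    · rw [if_neg hx, zero_mul, if_neg]
      intro h
      exact hx (Finset.union_eq_empty.1 h).1

/-- the augmentation -/
noncomputable def aug (k B : Type) [Field k] : Lam k B →+* k :=
  MonoidAlgebra.liftNCRingHom (RingHom.id k) (em k B) (fun _ _ => mul_comm _ _)

lemma aug_single (S : FS B) (c : k) :
    aug k B (MonoidAlgebra.single S c) = c * em k B S :=
  MonoidAlgebra.liftNCRingHom_single _ _ _ _ _

lemma single_mem_mm {S : FS B} (hS : S.s ≠ ∅) (c : k) :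
    MonoidAlgebra.single S c ∈ mm (ee k : B → Lam k B) := by
  classical
  obtain ⟨b, hb⟩ := Finset.nonempty_iff_ne_empty.2 hS
  have h1 : MonoidAlgebra.single S c = MonoidAlgebra.single S c * ee k b := by
    rw [ee, MonoidAlgebra.single_mul_single, mul_one]
    congr 1
    refine FS.ext ?_
    rw [FS.mul_s]
    exact (Finset.union_eq_left.2 (Finset.singleton_subset_iff.2 hb)).symm
  rw [h1]
  exact Ideal.mul_mem_left _ _ (e_mem_mm b)

lemma mm_eq_ker : mm (ee k : B → Lam k B) = RingHom.ker (aug k B) := by
  apply le_antisymm
  · rw [mm, Ideal.span_le]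
    rintro _ ⟨b, rfl⟩
    rw [SetLike.mem_coe, RingHom.mem_ker, ee, aug_single]
    simp [em]
  · intro x hx
    rw [RingHom.mem_ker] at hx
    have h1 : ∀ y : Lam k B, y - MonoidAlgebra.single 1 (aug k B y) ∈
        mm (ee k : B → Lam k B) := by
      intro y
      induction y using MonoidAlgebra.induction_linear with
      | zero => simp
      | add y z hy hz =>
        rw [map_add, MonoidAlgebra.single_add, add_sub_add_comm]
        exact add_mem hy hz
      | single S c =>
        rw [aug_single]
        by_cases hS : S.s = ∅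
        · have : S = 1 := FS.ext hS
          subst this
          rw [map_one, mul_one, sub_self]
          exact zero_mem _
        · have h2 : em k B S = 0 := by simp [em, hS]
          rw [h2, mul_zero, MonoidAlgebra.single_zero, sub_zero]
          exact single_mem_mm hS c
    have h2 := h1 x
    rwa [hx, MonoidAlgebra.single_zero, sub_zero] at h2

lemma mm_isMaximal : (mm (ee k : B → Lam k B)).IsMaximal := by
  rw [mm_eq_ker]
  refine RingHom.ker_isMaximal_of_surjective _ fun c => ⟨MonoidAlgebra.single 1 c, ?_⟩
  rw [aug_single, map_one, mul_one]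

/-! ### The group action -/

lemma mp_one : mp (1 : Equiv.Perm B) = MonoidHom.id (FS B) := by
  refine MonoidHom.ext fun x => FS.ext ?_
  exact Finset.map_refl

lemma mp_mul (g h : Equiv.Perm B) : mp (g * h) = (mp g).comp (mp h) := by
  classical
  refine MonoidHom.ext fun x => FS.ext ?_
  change x.s.map (g * h).toEmbedding = (x.s.map h.toEmbedding).map g.toEmbedding
  rw [Finset.map_map]
  rfl

/-- The action of permutations of `B` on `Λ`. -/
noncomputable instance : MulSemiringAction (Equiv.Perm B) (Lam k B) where
  smul g x := MonoidAlgebra.mapDomainRingHom k (mp g) x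
  one_smul x := by
    change MonoidAlgebra.mapDomainRingHom k (mp 1) x = x
    rw [mp_one, MonoidAlgebra.mapDomainRingHom_id]
    rfl
  mul_smul g h x := by
    change MonoidAlgebra.mapDomainRingHom k (mp (g * h)) x = _
    rw [mp_mul, MonoidAlgebra.mapDomainRingHom_comp]
    rfl
  smul_zero g := map_zero _
  smul_add g x y := map_add _ _ _
  smul_one g := map_one _
  smul_mul g x y := map_mul _ _ _

lemma smul_ee (g : Equiv.Perm B) (b : B) : g • (ee k b : Lam k B) = ee k (g b) := by
  change MonoidAlgebra.mapDomainRingHom k (mp g) (MonoidAlgebra.single ⟨{b}⟩ 1) = _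
  rw [MonoidAlgebra.mapDomainRingHom_apply, MonoidAlgebra.mapDomain_single, ee]
  congr 1

/-! ### The skew group ring -/

/-- The skew group ring. -/
abbrev Sk (k B : Type) [Field k] : Type := SkewMonoidAlgebra (Lam k B) (Equiv.Perm B)

open SkewMonoidAlgebra in
lemma iota_eq (c : Lam k B) : iota (Lam k B) (Sk k B) c = single 1 c := by
  rw [iota_apply, one_def, smul_single, smul_eq_mul, mul_one]

section SkewFacts

open SkewMonoidAlgebra

lemma conj_data [DecidableEq B] (b0 b : B) : ∃ (g : Lam k B ≃+* Lam k B) (u v : Sk k B),
    u * v = 1 ∧ v * u = 1 ∧ (∀ c, u * iota (Lam k B) (Sk k B) c =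
      iota (Lam k B) (Sk k B) (g c) * u) ∧ g (ee k b0) = ee k b := by
  let s : Equiv.Perm B := Equiv.swap b0 b
  refine ⟨MulSemiringAction.toRingEquiv (Equiv.Perm B) (Lam k B) s, single s 1,
    single s⁻¹ 1, ?_, ?_, fun c => ?_, ?_⟩
  · rw [single_mul_single, smul_one, mul_one, mul_inv_cancel, one_def]
  · rw [single_mul_single, smul_one, mul_one, inv_mul_cancel, one_def]
  · rw [iota_eq, iota_eq, single_mul_single, single_mul_single, one_mul, mul_one, one_smul,
      mul_one, one_mul]
    rfl
  · change s • (ee k b0 : Lam k B) = _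
    rw [smul_ee, Equiv.swap_apply_left]

lemma left_mul_mem (b : B) (a : Sk k B) :
    iota (Lam k B) (Sk k B) (ee k b) * a ∈ JJ (Sk k B) (ee k : B → Lam k B) := by
  induction a using SkewMonoidAlgebra.induction_on with
  | zero => rw [mul_zero]; exact zero_mem _
  | add f g hf hg => rw [mul_add]; exact add_mem hf hg
  | single g c =>
    have h1 : iota (Lam k B) (Sk k B) (ee k b) * single g c =
        single g c * iota (Lam k B) (Sk k B) (ee k (g⁻¹ b)) := by
      have h2 : g (g⁻¹ b) = b := g.apply_symm_apply b
      rw [iota_eq, iota_eq, single_mul_single, single_mul_single, one_mul, mul_one, one_smul,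
        smul_ee, h2, mul_comm]
    rw [h1]
    exact (JJ (Sk k B) (ee k : B → Lam k B)).smul_mem _ (Submodule.subset_span ⟨_, rfl⟩)

/-- the coefficient at the identity -/
noncomputable def chi (k B : Type) [Field k] : Sk k B →ₗ[Lam k B] Lam k B :=
  (Finsupp.lapply 1).comp (coeffLinearEquiv (S := Lam k B)).toLinearMap

lemma chi_apply (a : Sk k B) : chi k B a = a.coeff 1 := rfl

lemma chi_one : chi k B 1 = 1 := by
  rw [chi_apply, coeff_one, Finsupp.single_eq_same]

lemma chi_mul_mem (a : Sk k B) (b : B) :
    chi k B (a * iota (Lam k B) (Sk k B) (ee k b)) ∈ mm (ee k : B → Lam k B) := by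
  classical
  induction a using SkewMonoidAlgebra.induction_on with
  | zero => rw [zero_mul, map_zero]; exact zero_mem _
  | add f g hf hg => rw [add_mul, map_add]; exact add_mem hf hg
  | single g c =>
    rw [iota_eq, single_mul_single, smul_ee, chi_apply, coeff_single_apply]
    split_ifs
    · exact Ideal.mul_mem_left _ _ (e_mem_mm _)
    · exact zero_mem _

end SkewFacts

end Pool.Agent.RelCotorsion
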