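import Pool.Agent.RelCotorsion.StepB

set_option autoImplicit false

namespace Pool.Agent.RelCotorsion

open Cardinal

variable {B Λ P : Type} [CommRing Λ] [AddCommGroup P] [Module Λ P]
variable {e : B → Λ} {σ : B → Λ →+* Λ} {τ : B → P →+ P}

/-- The set `B` is the union of an increasing sequence of sets `T n` whose cardinalities
increase strictly. -/
structure Tower {B : Type} (κ : ℕ → Cardinal.{0}) (T : ℕ → Set B) : Prop where
  inf : ∀ n, ℵ₀ ≤ κ n
  mono : Monotone T
  all : ∀ b, ∃ n, b ∈ T n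
  card : ∀ n, #(T n) ≤ κ n
  fresh : ∀ n (S : Set B), #S ≤ κ n → ∃ a ∈ T (n + 1), a ∉ S

variable {κ : ℕ → Cardinal.{0}} {T : ℕ → Set B}

lemma Tower.infinite (hT : Tower κ T) : Infinite B := by
  by_contra hfin
  rw [not_infinite_iff_finite] at hfin
  obtain ⟨a, -, ha⟩ := hT.fresh 0 Set.univ (card_finite_le (hT.inf 0) Set.finite_univ)
  exact ha (Set.mem_univ a)

lemma Tower.uncountable (hT : Tower κ T) : Uncountable B := by
  by_contra hfin
  rw [not_uncountable_iff] at hfin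
  obtain ⟨a, -, ha⟩ := hT.fresh 0 Set.univ ((mk_le_aleph0 (α := (Set.univ : Set B))).trans
    (hT.inf 0))
  exact ha (Set.mem_univ a)

lemma Fresh.exists_finite_Q0 (h : Fresh e σ) (x : B →₀ Λ) :
    ∃ S : Set B, S.Finite ∧ x ∈ Q0 σ S := by
  refine ⟨(x.support : Set B) ∪ ⋃ j ∈ (x.support : Set B), {a | σ a (x j) ≠ x j},
    (x.support.finite_toSet.union (Set.Finite.biUnion x.support.finite_toSet
      fun j _ => h.fin (x j))), fun j hj => ?_, fun j a ha => ?_⟩
  · by_contra hne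
    exact hj (Or.inl (by simpa using hne))
  · by_contra hne
    have hj : j ∈ x.support := by
      rw [Finsupp.mem_support_iff]
      intro h0
      rw [h0, map_zero] at hne
      exact hne rfl
    refine ha (Or.inr ?_)
    simp only [Set.mem_iUnion]
    exact ⟨j, hj, hne⟩

theorem Tower.stepB (hT : Tower κ T) (h : Fresh e σ) (hP : FreshMod σ τ)
    (K : Submodule Λ (B →₀ Λ)) (ρ : B → (B →₀ Λ) →ₗ[Λ] (B →₀ Λ))
    (hρK : ∀ a x, ρ a x ∈ K) (hρ : ∀ a, ∀ x ∈ K, ρ a x = e a • x)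
    (φ : K →ₗ[Λ] LL P e) :
    ∃ ψ : (B →₀ Λ) →ₗ[Λ] LL P e, ∀ x : K, ψ x = φ x := by
  have := hT.infinite
  choose t ht1 ht2 using fun a j => h.exists_finite_Q0 (ρ a (Finsupp.single j 1))
  have hcl : ∀ n, F2 t (cl (F2 t) (T n)) ⊆ cl (F2 t) (T n) := fun n => cl_closed _ (F2_mono t) _
  refine RelCotorsion.stepB hT.inf h hP (fun n => cl (F2 t) (T n))
    (fun n m hnm => cl_mono _ (hT.mono hnm))
    (fun b => (hT.all b).imp fun n hn => subset_cl _ _ hn)
    (fun n => card_cl_F2 (hT.inf n) t (fun a j => card_finite_le (hT.inf n) (ht1 a j)) _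
      (hT.card n))
    (fun n S hS => (hT.fresh n S hS).imp fun a ha => ⟨subset_cl _ _ ha.1, ha.2⟩)
    K ρ hρK hρ (fun n a ha j hj => Q0_mono ?_ (ht2 a j)) φ
  refine Set.Subset.trans ?_ (hcl n)
  intro x hx
  simp only [F2, Set.mem_iUnion]
  exact ⟨a, ha, j, hj, hx⟩

section StepA

variable {N M : Type} [AddCommGroup N] [Module Λ N] [AddCommGroup M] [Module Λ M]

/-- the operation for closed subsets of `M` -/
def tt (s : B → M →ₗ[Λ] (M →₀ Λ)) (j : M) : Set M := ⋃ b, ((s b j).support : Set M)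

lemma supp_mem {s : B → M →ₗ[Λ] (M →₀ Λ)} {J : Set M} (hJ : F1 (tt s) J ⊆ J) (b : B) {x : M}
    (hx : x ∈ Submodule.span Λ J) : s b x ∈ Finsupp.supported Λ Λ J := by
  have : Submodule.span Λ J ≤ (Finsupp.supported Λ Λ J).comap (s b) := by
    rw [Submodule.span_le]
    intro j hj
    rw [SetLike.mem_coe, Submodule.mem_comap, Finsupp.mem_supported]
    refine Set.Subset.trans ?_ hJ
    intro i hi
    simp only [F1, tt, Set.mem_iUnion]
    exact ⟨j, hj, b, hi⟩
  exact this hx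

/-- A submodule is nice if it is spanned by a closed set. -/
def Nice (s : B → M →ₗ[Λ] (M →₀ Λ)) (M' : Submodule Λ M) : Prop :=
  ∃ J : Set M, F1 (tt s) J ⊆ J ∧ Submodule.span Λ J = M'

lemma Nice.iSup {s : B → M →ₗ[Λ] (M →₀ Λ)} {ι : Type} {M' : ι → Submodule Λ M}
    (hM : ∀ i, Nice s (M' i)) : Nice s (⨆ i, M' i) := by
  choose J hJ1 hJ2 using hM
  refine ⟨⋃ i, J i, ?_, ?_⟩
  · intro x hx
    simp only [F1, Set.mem_iUnion] at hx ⊢
    obtain ⟨j, ⟨i, hj⟩, hx⟩ := hx
    refine ⟨i, hJ1 i ?_⟩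
    simp only [F1, Set.mem_iUnion]
    exact ⟨j, hj, hx⟩
  · rw [Submodule.span_iUnion]
    simp only [hJ2]

lemma Nice.sup_span {s : B → M →ₗ[Λ] (M →₀ Λ)} {M' : Submodule Λ M} (hM : Nice s M')
    {C : Set M} (hC : F1 (tt s) C ⊆ C) : Nice s (M' ⊔ Submodule.span Λ C) := by
  obtain ⟨J, hJ1, rfl⟩ := hM
  refine ⟨J ∪ C, ?_, Submodule.span_union _ _⟩
  intro x hx
  simp only [F1, Set.mem_iUnion] at hx
  obtain ⟨j, hj | hj, hx⟩ := hx
  · refine Or.inl (hJ1 ?_)
    simp only [F1, Set.mem_iUnion]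
    exact ⟨j, hj, hx⟩
  · refine Or.inr (hC ?_)
    simp only [F1, Set.mem_iUnion]
    exact ⟨j, hj, hx⟩

lemma Fresh.one_step (hT : Tower κ T) (h : Fresh e σ) (hP : FreshMod σ τ)
    (π : N →ₗ[Λ] M) (hπ : Function.Surjective π) (s : B → M →ₗ[Λ] (M →₀ Λ))
    (hs : ∀ b m, Finsupp.linearCombination Λ id (s b m) = e b • m)
    (f : N →ₗ.[Λ] LL P e) (hker : LinearMap.ker π ≤ f.domain)
    (hnice : Nice s (f.domain.map π)) (j : M) :
    ∃ f' : N →ₗ.[Λ] LL P e, f ≤ f' ∧ Nice s (f'.domain.map π) ∧ j ∈ f'.domain.map π := by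
  classical
  have hBinf := hT.infinite
  obtain ⟨J, hJ1, hJ2⟩ := hnice
  set C : Set M := cl (F1 (tt s)) {j} with hCdef
  have hC : F1 (tt s) C ⊆ C := cl_closed _ (F1_mono _) _
  have hjC : j ∈ C := subset_cl _ _ rfl
  have hcard : #C ≤ #B := by
    have hB : ℵ₀ ≤ #B := aleph0_le_mk B
    refine card_cl_F1 hB _ (fun i => ?_) _ (card_finite_le hB (Set.finite_singleton j))
    exact card_iUnion_le hB le_rfl _ fun b => card_finite_le hB (Finset.finite_toSet _)
  obtain ⟨ι⟩ := hcard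
  let c : B → M := Function.extend ι Subtype.val (fun _ => j)
  have hcι : ∀ i : C, c (ι i) = i := fun i => ι.injective.extend_apply _ _ i
  have hcC : ∀ b, c b ∈ C := by
    intro b
    by_cases hb : ∃ i, ι i = b
    · obtain ⟨i, rfl⟩ := hb
      rw [hcι]
      exact i.2
    · change Function.extend ι Subtype.val (fun _ => j) b ∈ C
      rw [Function.extend_apply' _ _ _ hb]
      exact hjC
  have hrange : Set.range c = C := by
    ext i
    constructor
    · rintro ⟨b, rfl⟩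
      exact hcC b
    · intro hi
      exact ⟨ι ⟨i, hi⟩, hcι ⟨i, hi⟩⟩
  choose n hn using fun b => hπ (c b)
  let ν : (B →₀ Λ) →ₗ[Λ] N := Finsupp.linearCombination Λ n
  let p : (B →₀ Λ) →ₗ[Λ] M := π.comp ν
  have hp : p = Finsupp.linearCombination Λ c := by
    apply Finsupp.lhom_ext'
    intro b
    ext
    simp [p, ν, hn]
  have hprange : LinearMap.range p = Submodule.span Λ C := by
    rw [hp, Finsupp.range_linearCombination, hrange]
  let K : Submodule Λ (B →₀ Λ) := (Submodule.span Λ J).comap p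
  let r : (M →₀ Λ) →ₗ[Λ] (B →₀ Λ) := Finsupp.linearCombination Λ
    (fun i => if hi : i ∈ C ∧ i ∉ J then Finsupp.single (ι ⟨i, hi.1⟩) 1 else 0)
  have hpr : ∀ y ∈ Finsupp.supported Λ Λ C,
      Finsupp.linearCombination Λ id y - p (r y) ∈ Submodule.span Λ J := by
    intro y hy
    rw [Finsupp.mem_supported] at hy
    have h1 : p (r y) = Finsupp.linearCombination Λ
        (fun i => if i ∈ C ∧ i ∉ J then i else 0) y := by
      change (p.comp r) y = _
      congr 1
      apply Finsupp.lhom_ext'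
      intro i
      ext
      by_cases hi : i ∈ C ∧ i ∉ J
      · simp [r, hp, hi, hcι]
      · simp [r, hp, hi]
    rw [h1, Finsupp.linearCombination_apply, Finsupp.linearCombination_apply, Finsupp.sum,
      Finsupp.sum, ← Finset.sum_sub_distrib]
    refine Submodule.sum_mem _ fun i hi => ?_
    rw [← smul_sub]
    refine Submodule.smul_mem _ _ ?_
    have hiC : i ∈ C := hy hi
    by_cases hiJ : i ∈ J
    · rw [if_neg (fun h => h.2 hiJ), sub_zero]
      exact Submodule.subset_span hiJ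
    · rw [if_pos ⟨hiC, hiJ⟩, id, sub_self]
      exact Submodule.zero_mem _
  have hr0 : ∀ y ∈ Finsupp.supported Λ Λ J, r y = 0 := by
    intro y hy
    rw [Finsupp.mem_supported] at hy
    change Finsupp.linearCombination Λ _ y = 0
    rw [Finsupp.linearCombination_apply, Finsupp.sum]
    refine Finset.sum_eq_zero fun i hi => ?_
    rw [dif_neg (fun h : i ∈ C ∧ i ∉ J => h.2 (hy hi)), smul_zero]
  let ρ : B → (B →₀ Λ) →ₗ[Λ] (B →₀ Λ) := fun a =>
    LinearMap.lsmul Λ (B →₀ Λ) (e a) - r.comp ((s a).comp p)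
  have hρ_apply : ∀ a x, ρ a x = e a • x - r (s a (p x)) := fun a x => rfl
  have hρK : ∀ a x, ρ a x ∈ K := by
    intro a x
    rw [Submodule.mem_comap, hρ_apply, map_sub, map_smul, ← hs]
    refine hpr _ (supp_mem hC a ?_)
    rw [← hprange]
    exact ⟨x, rfl⟩
  have hρ : ∀ a, ∀ x ∈ K, ρ a x = e a • x := by
    intro a x hx
    rw [hρ_apply, hr0 _ (supp_mem hJ1 a hx), sub_zero]
  have hmemD : ∀ y, π y ∈ Submodule.span Λ J → y ∈ f.domain := by
    intro y hy
    rw [hJ2, Submodule.mem_map] at hy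
    obtain ⟨d, hd, hdy⟩ := hy
    have : y - d ∈ LinearMap.ker π := by
      rw [LinearMap.mem_ker, map_sub, hdy, sub_self]
    have h2 := f.domain.add_mem (hker this) hd
    rwa [sub_add_cancel] at h2
  let φK : K →ₗ[Λ] LL P e := f.toFun.comp ((ν.comp K.subtype).codRestrict f.domain
    (fun x => hmemD _ x.2))
  obtain ⟨ψ, hψ⟩ := hT.stepB h hP K ρ hρK hρ φK
  have hkerν : LinearMap.ker ν ≤ LinearMap.ker ψ := by
    intro x hx
    rw [LinearMap.mem_ker] at hx ⊢
    have hxK : x ∈ K := by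
      change π (ν x) ∈ Submodule.span Λ J
      rw [hx, map_zero]
      exact Submodule.zero_mem _
    have := hψ ⟨x, hxK⟩
    rw [show ψ x = φK ⟨x, hxK⟩ from this]
    change f.toFun ⟨ν x, _⟩ = 0
    have h0 : (⟨ν x, hmemD _ hxK⟩ : f.domain) = 0 := Subtype.ext hx
    rw [h0, map_zero]
  let g : N →ₗ.[Λ] LL P e := ⟨LinearMap.range ν,
    ((LinearMap.ker ν).liftQ ψ hkerν).comp ν.quotKerEquivRange.symm.toLinearMap⟩
  have hg : ∀ x (hx : ν x ∈ g.domain), g ⟨ν x, hx⟩ = ψ x := by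
    intro x hx
    change ((LinearMap.ker ν).liftQ ψ hkerν) (ν.quotKerEquivRange.symm ⟨ν x, hx⟩) = ψ x
    have : ν.quotKerEquivRange.symm ⟨ν x, hx⟩ = (LinearMap.ker ν).mkQ x := by
      rw [LinearEquiv.symm_apply_eq]
      exact Subtype.ext (ν.quotKerEquivRange_apply_mk x).symm
    rw [this, Submodule.mkQ_apply, Submodule.liftQ_apply]
  have hcompat : ∀ (x : f.domain) (y : g.domain), (x : N) = y → f x = g y := by
    rintro ⟨x, hx⟩ ⟨y, y', rfl⟩ hxy
    have hxy' : x = ν y' := hxy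
    subst hxy'
    refine Eq.trans ?_ (hg y' ⟨y', rfl⟩).symm
    have hyK : y' ∈ K := by
      change π (ν y') ∈ Submodule.span Λ J
      rw [hJ2]
      exact Submodule.mem_map_of_mem hx
    exact (hψ ⟨y', hyK⟩).symm
  refine ⟨f.sup g hcompat, LinearPMap.left_le_sup _ _ _, ?_, ?_⟩
  · rw [LinearPMap.domain_sup, Submodule.map_sup]
    have h1 : g.domain.map π = Submodule.span Λ C := by
      rw [← hprange]
      exact (LinearMap.range_comp _ _).symm
    rw [h1]
    exact Nice.sup_span ⟨J, hJ1, hJ2⟩ hC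
  · rw [LinearPMap.domain_sup, Submodule.map_sup]
    refine Submodule.mem_sup_right ?_
    have h1 : g.domain.map π = Submodule.span Λ C := by
      rw [← hprange]
      exact (LinearMap.range_comp _ _).symm
    rw [h1]
    exact Submodule.subset_span hjC

/-- `L(P)` is injective with respect to inclusions whose cokernel is locally projective. -/
theorem Fresh.extend (hT : Tower κ T) (h : Fresh e σ) (hP : FreshMod σ τ)
    (π : N →ₗ[Λ] M) (hπ : Function.Surjective π) (s : B → M →ₗ[Λ] (M →₀ Λ))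
    (hs : ∀ b m, Finsupp.linearCombination Λ id (s b m) = e b • m)
    (φ : LinearMap.ker π →ₗ[Λ] LL P e) :
    ∃ ψ : N →ₗ[Λ] LL P e, ∀ x : LinearMap.ker π, ψ x = φ x := by
  let f0 : N →ₗ.[Λ] LL P e := ⟨LinearMap.ker π, φ⟩
  let Z : Set (N →ₗ.[Λ] LL P e) := {f | f0 ≤ f ∧ Nice s (f.domain.map π)}
  have hf0 : f0 ∈ Z := by
    refine ⟨le_rfl, ∅, ?_, ?_⟩
    · intro x hx
      simp [F1] at hx
    · rw [Submodule.span_empty]
      symm
      rw [eq_bot_iff]
      rintro _ ⟨x, hx, rfl⟩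
      exact (Submodule.mem_bot Λ).2 hx
  obtain ⟨f, hf0f, hf⟩ := zorn_le_nonempty₀ Z (by
    intro c hcZ hc y hy
    have hdir : DirectedOn (· ≤ ·) c := hc.directedOn
    have hne : c.Nonempty := ⟨y, hy⟩
    refine ⟨LinearPMap.sSup c hdir, ⟨?_, ?_⟩, fun z hz => LinearPMap.le_sSup hdir hz⟩
    · exact (hcZ hy).1.trans (LinearPMap.le_sSup hdir hy)
    · have h1 : (LinearPMap.sSup c hdir).domain.map π =
          ⨆ i : c, (i : N →ₗ.[Λ] LL P e).domain.map π := by
        have : (LinearPMap.sSup c hdir).domain =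
            ⨆ i : c, (i : N →ₗ.[Λ] LL P e).domain := by
          rw [LinearPMap.domain_sSup, sSup_image, iSup_subtype']
        rw [this, Submodule.map_iSup]
      rw [h1]
      exact Nice.iSup fun i => (hcZ i.2).2) f0 hf0
  have hker : LinearMap.ker π ≤ f.domain := hf0f.1
  have htop : ∀ x, x ∈ f.domain := by
    intro x
    obtain ⟨f', hff', hnice, hj⟩ := h.one_step hT hP π hπ s hs f hker hf.prop.2 (π x)
    have hf' : f' ≤ f := hf.le_of_ge ⟨hf0f.trans hff', hnice⟩ hff'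
    obtain ⟨d, hd, hdx⟩ := hj
    have h1 : x - d ∈ LinearMap.ker π := by
      rw [LinearMap.mem_ker, map_sub, hdx, sub_self]
    have h2 := f.domain.add_mem (hker h1) (hf'.1 hd)
    rwa [sub_add_cancel] at h2
  refine ⟨f.toFun.comp (LinearMap.id.codRestrict f.domain htop), fun x => ?_⟩
  exact (hf0f.2 (x := x) (y := ⟨x, htop x⟩) rfl).symm

end StepA

end Pool.Agent.RelCotorsion
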