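import Pool.Agent.RelCotorsion.Fresh
import Pool.Agent.RelCotorsion.Card

set_option autoImplicit false

namespace Pool.Agent.RelCotorsion

open Cardinal

variable {B Λ P : Type} [CommRing Λ] [AddCommGroup P] [Module Λ P]
variable {e : B → Λ} {σ : B → Λ →+* Λ} {τ : B → P →+ P}

/-- The subring of the elements which involve only coordinates in `T`. -/
def sub (σ : B → Λ →+* Λ) (T : Set B) : Subring Λ where
  carrier := {x | ∀ a, a ∉ T → σ a x = x}
  mul_mem' := by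
    intro x y hx hy a ha
    rw [map_mul, hx a ha, hy a ha]
  one_mem' := fun a _ => map_one _
  add_mem' := by
    intro x y hx hy a ha
    rw [map_add, hx a ha, hy a ha]
  zero_mem' := fun a _ => map_zero _
  neg_mem' := by
    intro x hx a ha
    rw [map_neg, hx a ha]

lemma mem_sub {T : Set B} {x : Λ} : x ∈ sub σ T ↔ ∀ a, a ∉ T → σ a x = x := Iff.rfl

lemma sub_mono {T T' : Set B} (hT : T ⊆ T') : sub σ T ≤ sub σ T' :=
  fun _ hx a ha => hx a (fun h => ha (hT h))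

lemma Fresh.card_sub (h : Fresh e σ) {κ : Cardinal.{0}} (hκ : ℵ₀ ≤ κ) {T : Set B}
    (hT : #T ≤ κ) : #(sub σ T : Set Λ) ≤ κ := (h.card T).trans (max_le hT hκ)

lemma Fresh.e_mem_sub (h : Fresh e σ) {T : Set B} {b : B} (hb : b ∈ T) : e b ∈ sub σ T :=
  fun a ha => h.other a b (fun hab => ha (hab ▸ hb))

/-- elements of `Λ^(B)` with support in `T` and coefficients which involve only `T`. -/
def Q0 (σ : B → Λ →+* Λ) (T : Set B) : AddSubgroup (B →₀ Λ) where
  carrier := {x | (∀ j, j ∉ T → x j = 0) ∧ ∀ j, x j ∈ sub σ T}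
  add_mem' := by
    rintro x y ⟨hx, hx'⟩ ⟨hy, hy'⟩
    refine ⟨fun j hj => ?_, fun j => ?_⟩
    · rw [Finsupp.add_apply, hx j hj, hy j hj, add_zero]
    · rw [Finsupp.add_apply]
      exact add_mem (hx' j) (hy' j)
  zero_mem' := ⟨fun j _ => rfl, fun j => zero_mem _⟩
  neg_mem' := by
    rintro x ⟨hx, hx'⟩
    refine ⟨fun j hj => ?_, fun j => ?_⟩
    · rw [Finsupp.neg_apply, hx j hj, neg_zero]
    · rw [Finsupp.neg_apply]
      exact neg_mem (hx' j)

lemma mem_Q0 {T : Set B} {x : B →₀ Λ} :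
    x ∈ Q0 σ T ↔ (∀ j, j ∉ T → x j = 0) ∧ ∀ j, x j ∈ sub σ T := Iff.rfl

lemma Q0_mono {T T' : Set B} (hT : T ⊆ T') : Q0 σ T ≤ Q0 σ T' :=
  fun _ hx => ⟨fun j hj => hx.1 j (fun h => hj (hT h)), fun j => sub_mono hT (hx.2 j)⟩

lemma smul_mem_Q0 {T : Set B} {c : Λ} {x : B →₀ Λ} (hc : c ∈ sub σ T) (hx : x ∈ Q0 σ T) :
    c • x ∈ Q0 σ T := by
  refine ⟨fun j hj => ?_, fun j => ?_⟩
  · rw [Finsupp.smul_apply, hx.1 j hj, smul_zero]
  · rw [Finsupp.smul_apply]
    exact mul_mem hc (hx.2 j)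

lemma Fresh.card_Q0 (h : Fresh e σ) {κ : Cardinal.{0}} (hκ : ℵ₀ ≤ κ) {T : Set B}
    (hT : #T ≤ κ) : #(Q0 σ T) ≤ κ := by
  classical
  let g : Λ → sub σ T := fun c => if hc : c ∈ sub σ T then ⟨c, hc⟩ else 0
  have hg0 : g 0 = 0 := by
    simp only [g]
    rw [dif_pos (zero_mem _)]
    rfl
  have hg : ∀ c ∈ sub σ T, ((g c : sub σ T) : Λ) = c := by
    intro c hc
    simp only [g]
    rw [dif_pos hc]
  let f : ↥(Q0 σ T) → (T →₀ sub σ T) := fun x =>
    Finsupp.mapRange g hg0 (Finsupp.subtypeDomain (· ∈ T) (x : B →₀ Λ))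
  have hf : Function.Injective f := by
    intro x y hxy
    have hx2 := mem_Q0.1 x.2
    have hy2 := mem_Q0.1 y.2
    apply Subtype.ext
    apply Finsupp.ext
    intro j
    by_cases hj : j ∈ T
    · have := congrArg (fun z : T →₀ sub σ T => ((z ⟨j, hj⟩ : sub σ T) : Λ)) hxy
      simp only [f, Finsupp.mapRange_apply, Finsupp.subtypeDomain_apply] at this
      rwa [hg _ (hx2.2 j), hg _ (hy2.2 j)] at this
    · rw [hx2.1 j hj, hy2.1 j hj]
  exact (mk_le_of_injective hf).trans (card_finsupp_le hκ hT (h.card_sub hκ hT))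

lemma Fresh.exists_mem_Q0 (h : Fresh e σ) {T : ℕ → Set B} (hT : Monotone T)
    (hTall : ∀ b, ∃ n, b ∈ T n) (x : B →₀ Λ) : ∃ n, x ∈ Q0 σ (T n) := by
  have hfin : ∀ S : Set B, S.Finite → ∃ n, S ⊆ T n := by
    intro S hS
    induction S, hS using Set.Finite.induction_on with
    | empty => exact ⟨0, Set.empty_subset _⟩
    | @insert a S _ _ ih =>
      obtain ⟨n, hn⟩ := ih
      obtain ⟨m, hm⟩ := hTall a
      refine ⟨max n m, Set.insert_subset (hT (le_max_right n m) hm)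
        (hn.trans (hT (le_max_left n m)))⟩
  obtain ⟨n, hn⟩ := hfin ((x.support : Set B) ∪ ⋃ j ∈ (x.support : Set B), {a | σ a (x j) ≠ x j})
    (x.support.finite_toSet.union (Set.Finite.biUnion x.support.finite_toSet
      fun j _ => h.fin (x j)))
  refine ⟨n, fun j hj => ?_, fun j a ha => ?_⟩
  · by_contra hne
    exact hj (hn (Or.inl (by simpa using hne)))
  · by_contra hne
    have hj : j ∈ x.support := by
      rw [Finsupp.mem_support_iff]
      intro h0
      rw [h0, map_zero] at hne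
      exact hne rfl
    refine ha (hn (Or.inr ?_))
    simp only [Set.mem_iUnion]
    exact ⟨j, hj, hne⟩

lemma Fresh.exists_mem_sub (h : Fresh e σ) {T : ℕ → Set B} (hT : Monotone T)
    (hTall : ∀ b, ∃ n, b ∈ T n) [Nonempty B] (c : Λ) : ∃ n, c ∈ sub σ (T n) := by
  obtain ⟨n, hn⟩ := h.exists_mem_Q0 hT hTall (Finsupp.single (Classical.arbitrary B) c)
  refine ⟨n, ?_⟩
  have := hn.2 (Classical.arbitrary B)
  rwa [Finsupp.single_eq_same] at this

lemma key2 {G : Type} [AddCommGroup G] (X A1 A2 D1 D2 D3 : G)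
    (h : X - (A1 + A2) = D1 - (D2 + D3)) : X - D1 = (A1 - D2) + (A2 - D3) := by
  rw [sub_eq_iff_eq_add] at h
  rw [h]
  abel

lemma key3 {G : Type} [AddCommGroup G] (X A1 D1 D2 : G)
    (h : X - A1 = D1 - D2) : X - D1 = A1 - D2 := by
  rw [sub_eq_iff_eq_add] at h
  rw [h]
  abel

lemma stepB1 {κ : Cardinal.{0}} (hκ : ℵ₀ ≤ κ) (h : Fresh e σ) (hP : FreshMod σ τ)
    (hfresh : ∀ S : Set B, #S ≤ κ → ∃ a, a ∉ S) {K : Type} [AddCommGroup K] [Module Λ K]
    (φ : K →ₗ[Λ] LL P e) (T : Set B) (hT : #T ≤ κ) (S : Set K) (hS : #S ≤ κ) :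
    ∃ F : K → (B → P), (∀ x, Nrm e (F x)) ∧ (∀ x, (W P e).mkQ (F x) = φ x) ∧
      (∀ x ∈ S, ∀ y ∈ S, F (x + y) = F x + F y) ∧
      (∀ c ∈ sub σ T, ∀ x ∈ S, F (c • x) = c • F x) := by
  choose c hc1 hc2 using fun x => h.exists_rep (φ x)
  have hadd : ∀ x y, ∃ p, c (x + y) - (c x + c y) = diag e p := fun x y =>
    (mkQ_eq_iff (hc1 _) ((hc1 _).add (hc1 _))).1 (by rw [map_add, hc2, hc2, hc2, map_add])
  have hsm : ∀ l x, ∃ p, c (l • x) - l • c x = diag e p := fun l x =>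
    (mkQ_eq_iff (hc1 _) ((hc1 _).smul l)).1 (by rw [map_smul, hc2, hc2, map_smul])
  choose p hp using hadd
  choose p' hp' using hsm
  obtain ⟨a, ha⟩ := hfresh (T ∪ ((⋃ x ∈ S, ⋃ y ∈ S, {a | τ a (p x y) ≠ p x y}) ∪
      (⋃ l ∈ (sub σ T : Set Λ), ⋃ x ∈ S, {a | τ a (p' l x) ≠ p' l x})))
    (card_union_le hκ hT (card_union_le hκ
      (card_biUnion_le hκ hS _ fun x _ => card_biUnion_le hκ hS _ fun y _ =>
        card_finite_le hκ (hP.fin _))
      (card_biUnion_le hκ (h.card_sub hκ hT) _ fun l _ => card_biUnion_le hκ hS _ fun x _ =>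
        card_finite_le hκ (hP.fin _))))
  simp only [Set.mem_union, Set.mem_iUnion, Set.mem_ofPred_eq, not_or, not_exists, not_not] at ha
  obtain ⟨haT, ha1, ha2⟩ := ha
  refine ⟨fun x => c x - diag e (τ a (c x a)), fun x => (hc1 x).sub (h.nrm_diag _), fun x => ?_,
    fun x hx y hy => ?_, fun l hl x hx => ?_⟩
  · rw [map_sub, h.mkQ_diag, sub_zero, hc2]
  · have h1 : τ a (c (x + y) a) - (τ a (c x a) + τ a (c y a)) = p x y := by
      have := congrArg (τ a) (congrFun (hp x y) a)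
      rw [diag_apply, hP.smul, h.self, one_smul, ha1 x hx y hy, Pi.sub_apply, Pi.add_apply,
        map_sub, map_add] at this
      exact this
    have h2 : c (x + y) - (c x + c y) =
        diag e (τ a (c (x + y) a)) - (diag e (τ a (c x a)) + diag e (τ a (c y a))) := by
      rw [hp, ← h1, map_sub, map_add]
    exact key2 _ _ _ _ _ _ h2
  · have hla : σ a l = l := hl a haT
    have h1 : τ a (c (l • x) a) - l • τ a (c x a) = p' l x := by
      have := congrArg (τ a) (congrFun (hp' l x) a)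
      rw [diag_apply, hP.smul, h.self, one_smul, ha2 l hl x hx, Pi.sub_apply, Pi.smul_apply,
        map_sub, hP.smul, hla] at this
      exact this
    have h2 : c (l • x) - l • c x =
        diag e (τ a (c (l • x) a)) - l • diag e (τ a (c x a)) := by
      rw [hp', ← h1, map_sub, map_smul]
    change c (l • x) - _ = l • (c x - _)
    rw [smul_sub]
    exact key3 _ _ _ _ h2

lemma stepB2 {κ : Cardinal.{0}} (hκ : ℵ₀ ≤ κ) (h : Fresh e σ) (hP : FreshMod σ τ)
    (T T' : Set B) (hTT' : T ⊆ T') (hT : #T ≤ κ)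
    (hfresh : ∀ S : Set B, #S ≤ κ → ∃ a ∈ T', a ∉ S)
    (K : Submodule Λ (B →₀ Λ)) (ρ : B → (B →₀ Λ) →ₗ[Λ] (B →₀ Λ))
    (hρK : ∀ a x, ρ a x ∈ K) (hρ : ∀ a, ∀ x ∈ K, ρ a x = e a • x)
    (hcl : ∀ a ∈ T', ∀ j ∈ T', ρ a (Finsupp.single j 1) ∈ Q0 σ T')
    (f : K → P) (hf1 : ∀ x y : K, (x : B →₀ Λ) ∈ Q0 σ T' → (y : B →₀ Λ) ∈ Q0 σ T' →
      f (x + y) = f x + f y)
    (hf2 : ∀ c ∈ sub σ T', ∀ x : K, (x : B →₀ Λ) ∈ Q0 σ T' → f (c • x) = c • f x) :
    ∃ g : (B →₀ Λ) →ₗ[Λ] P, ∀ x : K, (x : B →₀ Λ) ∈ Q0 σ T → g x = f x := by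
  let S : Set K := {x | (x : B →₀ Λ) ∈ Q0 σ T}
  have hS : #S ≤ κ := by
    have hinj : Function.Injective (fun x : S => (⟨((x : K) : B →₀ Λ), x.2⟩ :
        ↥(Q0 σ T))) := by
      intro x y hxy
      have := congrArg Subtype.val hxy
      exact Subtype.ext (Subtype.ext this)
    exact (mk_le_of_injective hinj).trans (h.card_Q0 hκ hT)
  obtain ⟨a, haT', ha⟩ := hfresh (T ∪ ⋃ x ∈ S, {a | τ a (f x) ≠ f x})
    (card_union_le hκ hT (card_biUnion_le hκ hS _ fun x _ => card_finite_le hκ (hP.fin _)))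
  simp only [Set.mem_union, Set.mem_iUnion, Set.mem_ofPred_eq, not_or, not_exists, not_not] at ha
  obtain ⟨haT, ha1⟩ := ha
  have hf0 : f 0 = 0 := by
    have := hf1 0 0 (zero_mem _) (zero_mem _)
    rw [add_zero] at this
    exact left_eq_add.1 this
  -- sums
  have hsum : ∀ (s : Finset B) (u : B → K), (∀ j ∈ s, (u j : B →₀ Λ) ∈ Q0 σ T') →
      (((∑ j ∈ s, u j : K) : B →₀ Λ) ∈ Q0 σ T' ∧ f (∑ j ∈ s, u j) = ∑ j ∈ s, f (u j)) := by
    intro s u
    induction s using Finset.cons_induction with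
    | empty =>
      intro _
      rw [Finset.sum_empty, Finset.sum_empty]
      exact ⟨zero_mem _, hf0⟩
    | cons b s hb ih =>
      intro hu
      obtain ⟨ih1, ih2⟩ := ih (fun j hj => hu j (Finset.mem_cons_of_mem hj))
      have hub := hu b (Finset.mem_cons_self b s)
      rw [Finset.sum_cons, Finset.sum_cons]
      refine ⟨?_, ?_⟩
      · rw [Submodule.coe_add]
        exact add_mem hub ih1
      · rw [hf1 _ _ hub ih1, ih2]
  let v : B → K := fun j => ⟨ρ a (Finsupp.single j 1), hρK a _⟩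
  refine ⟨Finsupp.linearCombination Λ (fun j => τ a (f (v j))), fun x hx => ?_⟩
  have hx' : (x : B →₀ Λ) ∈ Q0 σ T' := Q0_mono hTT' hx
  rw [Finsupp.linearCombination_apply, Finsupp.sum]
  have hjT : ∀ j ∈ (x : B →₀ Λ).support, j ∈ T := by
    intro j hj
    by_contra hjT
    exact (Finsupp.mem_support_iff.1 hj) (hx.1 j hjT)
  have hv : ∀ j ∈ (x : B →₀ Λ).support, ((v j : K) : B →₀ Λ) ∈ Q0 σ T' := fun j hj =>
    hcl a haT' j (hTT' (hjT j hj))
  have h1 : ∀ j ∈ (x : B →₀ Λ).support, (x : B →₀ Λ) j • τ a (f (v j)) =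
      τ a (f ((x : B →₀ Λ) j • v j)) := by
    intro j hj
    rw [hf2 _ (hx'.2 j) _ (hv j hj), hP.smul, hx.2 j a haT]
  rw [Finset.sum_congr rfl h1, ← map_sum]
  have h2 := (hsum (x : B →₀ Λ).support (fun j => (x : B →₀ Λ) j • v j) (by
    intro j hj
    rw [Submodule.coe_smul]
    exact smul_mem_Q0 (hx'.2 j) (hv j hj))).2
  rw [← h2]
  have h3 : (∑ j ∈ (x : B →₀ Λ).support, (x : B →₀ Λ) j • v j : K) = e a • x := by
    apply Subtype.ext
    rw [Submodule.coe_smul, ← hρ a x x.2, Submodule.coe_sum]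
    conv_rhs => rw [← Finsupp.sum_single (x : B →₀ Λ), Finsupp.sum, map_sum]
    refine Finset.sum_congr rfl fun j _ => ?_
    rw [Submodule.coe_smul]
    change (x : B →₀ Λ) j • ρ a (Finsupp.single j 1) = _
    rw [← map_smul, Finsupp.smul_single, smul_eq_mul, mul_one]
  rw [h3, hf2 _ (h.e_mem_sub haT') _ hx', hP.smul, h.self, one_smul, ha1 x hx]

theorem stepB {κ : ℕ → Cardinal.{0}} (hκ : ∀ n, ℵ₀ ≤ κ n) [Infinite B]
    (h : Fresh e σ) (hP : FreshMod σ τ)
    (T : ℕ → Set B) (hTmono : Monotone T) (hTall : ∀ b, ∃ n, b ∈ T n)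
    (hTcard : ∀ n, #(T n) ≤ κ n)
    (hfresh : ∀ n (S : Set B), #S ≤ κ n → ∃ a ∈ T (n + 1), a ∉ S)
    (K : Submodule Λ (B →₀ Λ)) (ρ : B → (B →₀ Λ) →ₗ[Λ] (B →₀ Λ))
    (hρK : ∀ a x, ρ a x ∈ K) (hρ : ∀ a, ∀ x ∈ K, ρ a x = e a • x)
    (hcl : ∀ n, ∀ a ∈ T n, ∀ j ∈ T n, ρ a (Finsupp.single j 1) ∈ Q0 σ (T n))
    (φ : K →ₗ[Λ] LL P e) :
    ∃ ψ : (B →₀ Λ) →ₗ[Λ] LL P e, ∀ x : K, ψ x = φ x := by
  let S : ℕ → Set K := fun n => {x | (x : B →₀ Λ) ∈ Q0 σ (T n)}
  have hS : ∀ n, #(S n) ≤ κ n := by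
    intro n
    have hinj : Function.Injective (fun x : S n => (⟨((x : K) : B →₀ Λ), x.2⟩ :
        ↥(Q0 σ (T n)))) := by
      intro x y hxy
      have := congrArg Subtype.val hxy
      exact Subtype.ext (Subtype.ext this)
    exact (mk_le_of_injective hinj).trans (h.card_Q0 (hκ n) (hTcard n))
  have hSmono : Monotone S := fun n m hnm x hx => Q0_mono (hTmono hnm) hx
  have hSall : ∀ x, ∃ n, x ∈ S n := fun x => h.exists_mem_Q0 hTmono hTall x
  have hSadd : ∀ n, ∀ x ∈ S n, ∀ y ∈ S n, x + y ∈ S n := fun n x hx y hy => by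
    change ((x + y : K) : B →₀ Λ) ∈ Q0 σ (T n)
    rw [Submodule.coe_add]
    exact add_mem hx hy
  have hSsmul : ∀ n, ∀ c ∈ sub σ (T n), ∀ x ∈ S n, c • x ∈ S n := fun n c hc x hx => by
    change ((c • x : K) : B →₀ Λ) ∈ Q0 σ (T n)
    rw [Submodule.coe_smul]
    exact smul_mem_Q0 hc hx
  choose F hF1 hF2 hF3 hF4 using fun n => stepB1 (hκ n) h hP
    (fun S hS => (hfresh n S hS).imp fun a ha => ha.2) φ (T n) (hTcard n) (S n) (hS n)
  have hf : ∀ n x, ∃ p, F (n + 1) x - F n x = diag e p := fun n x =>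
    (mkQ_eq_iff (hF1 _ _) (hF1 _ _)).1 (by rw [hF2, hF2])
  choose f hf using hf
  have hinj : Function.Injective (diag e : P →ₗ[Λ] (B → P)) := h.diag_injective hP
  have hf1 : ∀ n, ∀ x ∈ S n, ∀ y ∈ S n, f n (x + y) = f n x + f n y := by
    intro n x hx y hy
    apply hinj
    rw [map_add, ← hf, ← hf, ← hf, hF3 n x hx y hy,
      hF3 (n + 1) x (hSmono n.le_succ hx) y (hSmono n.le_succ hy)]
    exact add_sub_add_comm _ _ _ _
  have hf2 : ∀ n, ∀ c ∈ sub σ (T n), ∀ x ∈ S n, f n (c • x) = c • f n x := by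
    intro n c hc x hx
    apply hinj
    rw [map_smul, ← hf, ← hf, hF4 n c hc x hx,
      hF4 (n + 1) c (sub_mono (hTmono n.le_succ) hc) x (hSmono n.le_succ hx), smul_sub]
  choose g hg using fun n => stepB2 (hκ n) h hP (T n) (T (n + 1)) (hTmono n.le_succ) (hTcard n)
    (hfresh n) K ρ hρK hρ (hcl (n + 1)) (f (n + 1)) (fun x y hx hy => hf1 (n + 1) x hx y hy)
    (fun c hc x hx => hf2 (n + 1) c hc x hx)
  let E : ℕ → K → (B → P) := fun n x => F (n + 1) x - diag e (∑ i ∈ Finset.range n, g i x)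
  have hE : ∀ n, ∀ x ∈ S n, E (n + 1) x = E n x := by
    intro n x hx
    have h1 : F (n + 1 + 1) x = F (n + 1) x + diag e (f (n + 1) x) := by
      rw [← hf]; exact (add_sub_cancel _ _).symm
    have h2 : g n x = f (n + 1) x := hg n x hx
    change F (n + 1 + 1) x - diag e (∑ i ∈ Finset.range (n + 1), g i x) =
      F (n + 1) x - diag e (∑ i ∈ Finset.range n, g i x)
    rw [Finset.sum_range_succ, map_add, h1, h2]
    exact add_sub_add_right_eq_sub _ _ _
  have hE' : ∀ n m, n ≤ m → ∀ x ∈ S n, E m x = E n x := by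
    intro n m hnm
    induction m, hnm using Nat.le_induction with
    | base => intro x _; rfl
    | succ m hm ih =>
      intro x hx
      rw [hE m x (hSmono hm hx), ih x hx]
  choose N hN using hSall
  have hEN : ∀ n, ∀ x ∈ S n, E (N x) x = E n x := by
    intro n x hx
    rcases le_total n (N x) with hle | hle
    · exact hE' _ _ hle x hx
    · exact (hE' _ _ hle x (hN x)).symm
  have hEadd : ∀ n, ∀ x ∈ S n, ∀ y ∈ S n, E n (x + y) = E n x + E n y := by
    intro n x hx y hy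
    change F (n + 1) (x + y) - diag e (∑ i ∈ Finset.range n, g i ((x + y : K) : B →₀ Λ)) =
      (F (n + 1) x - diag e (∑ i ∈ Finset.range n, g i x)) +
      (F (n + 1) y - diag e (∑ i ∈ Finset.range n, g i y))
    rw [hF3 (n + 1) x (hSmono n.le_succ hx) y (hSmono n.le_succ hy)]
    simp only [Submodule.coe_add, map_add, Finset.sum_add_distrib]
    exact add_sub_add_comm _ _ _ _
  have hEsmul : ∀ n, ∀ c ∈ sub σ (T n), ∀ x ∈ S n, E n (c • x) = c • E n x := by
    intro n c hc x hx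
    change F (n + 1) (c • x) - diag e (∑ i ∈ Finset.range n, g i ((c • x : K) : B →₀ Λ)) =
      c • (F (n + 1) x - diag e (∑ i ∈ Finset.range n, g i x))
    rw [hF4 (n + 1) c (sub_mono (hTmono n.le_succ) hc) x (hSmono n.le_succ hx), smul_sub]
    simp only [Submodule.coe_smul, map_smul, ← Finset.smul_sum]
  have hnrm : ∀ n x, Nrm e (E n x) := fun n x => (hF1 _ _).sub (h.nrm_diag _)
  have hrep : ∀ n x, (W P e).mkQ (E n x) = φ x := by
    intro n x
    change (W P e).mkQ (F (n + 1) x - diag e (∑ i ∈ Finset.range n, g i x)) = φ x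
    rw [map_sub, h.mkQ_diag, sub_zero, hF2]
  let Φ : K →ₗ[Λ] (B → P) :=
    { toFun := fun x => E (N x) x
      map_add' := by
        intro x y
        let n := max (N x) (N y)
        have hx : x ∈ S n := hSmono (le_max_left _ _) (hN x)
        have hy : y ∈ S n := hSmono (le_max_right _ _) (hN y)
        rw [hEN n x hx, hEN n y hy, hEN n (x + y) (hSadd n x hx y hy), hEadd n x hx y hy]
      map_smul' := by
        intro c x
        obtain ⟨m, hm⟩ := h.exists_mem_sub hTmono hTall c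
        let n := max (N x) m
        have hx : x ∈ S n := hSmono (le_max_left _ _) (hN x)
        have hc : c ∈ sub σ (T n) := sub_mono (hTmono (le_max_right _ _)) hm
        rw [RingHom.id_apply, hEN n x hx, hEN n (c • x) (hSsmul n c hc x hx), hEsmul n c hc x hx] }
  have hΦ1 : ∀ x, Nrm e (Φ x) := fun x => hnrm _ _
  have hΦ2 : ∀ x, (W P e).mkQ (Φ x) = φ x := fun x => hrep _ _
  let ψ' : (B →₀ Λ) →ₗ[Λ] (B → P) := LinearMap.pi fun b =>
    (LinearMap.proj b).comp (Φ.comp ((ρ b).codRestrict K (hρK b)))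
  refine ⟨(W P e).mkQ.comp ψ', fun x => ?_⟩
  have h1 : ψ' x = Φ x := by
    funext b
    change Φ ⟨ρ b x, hρK b x⟩ b = Φ x b
    have h2 : (⟨ρ b x, hρK b x⟩ : K) = e b • x := Subtype.ext (hρ b x x.2)
    rw [h2, map_smul, Pi.smul_apply, hΦ1 x b]
  rw [LinearMap.comp_apply, h1, hΦ2]

end Pool.Agent.RelCotorsion
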